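import Pool.Agent.Lib.MP_fcd4e5_al.Rel

set_option autoImplicit false

namespace Pool.Agent.Lib.MP_fcd4e5_al

open scoped commutatorElement

theorem rels_finite {p : ℕ} [hp : Fact p.Prime] (Hor Ver : ZMod p → ZMod p → Prop) {G : Type}
    [Group G] (x y a : G) : ∃ 𝒯 : Set (MonoidAlgebra ℤ G), 𝒯.Finite ∧
      ∀ (N : Type) [AddCommGroup N] (σ : Representation ℤ G N) (e : N),
        Rels Hor Ver σ x y a e ↔ ∀ τ ∈ 𝒯, σ.asAlgebraHom τ e = 0 := by
  set o := MonoidAlgebra.of ℤ G with ho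
  refine ⟨{o x - 1, o y - 1, (p : MonoidAlgebra ℤ G), o (a ^ (p - 1)) - 1} ∪
    (fun z : G × ℕ => o (z.1 * a ^ z.2) - o (a ^ z.2)) ''
      ({⁅x, y⁆, ⁅a, ⁅a, x⁆⁆, ⁅a, ⁅a, y⁆⁆} ×ˢ Set.Iio (p - 1)) ∪
    (fun z : ZMod p × ZMod p => ind z.1 (o a) * ind z.2 (o (x * a * x⁻¹))) '' {z | ¬ Hor z.1 z.2} ∪
    (fun z : ZMod p × ZMod p => ind z.1 (o a) * ind z.2 (o (y * a * y⁻¹))) '' {z | ¬ Ver z.1 z.2},
    ?_, ?_⟩
  · refine ((Set.Finite.union (Set.toFinite _) (Set.Finite.image _ ?_)).union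
      (Set.Finite.image _ (Set.toFinite _))).union (Set.Finite.image _ (Set.toFinite _))
    exact (Set.toFinite _).prod (Set.finite_Iio _)
  · intro N _ σ e
    have h1 : ∀ g, σ.asAlgebraHom (o g) = σ g := σ.asAlgebraHom_of
    have h2 : ∀ (s : ZMod p) g, σ.asAlgebraHom (ind s (o g)) = ind s (σ g) := fun s g => by
      rw [← h1]; exact map_ind σ.asAlgebraHom.toRingHom s (o g)
    constructor
    · intro R τ hτ
      rcases hτ with (((rfl | rfl | rfl | rfl) | ⟨⟨c, k⟩, ⟨hc, hk⟩, rfl⟩) | ⟨z, hz, rfl⟩) |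
        ⟨z, hz, rfl⟩
      · rw [map_sub, h1, map_one]; simp [R.hx]
      · rw [map_sub, h1, map_one]; simp [R.hy]
      · rw [map_natCast]; exact R.h0
      · rw [map_sub, h1, map_one, LinearMap.sub_apply, R.ha]; simp
      · rw [map_sub, h1, h1, LinearMap.sub_apply, R.hc c hc k hk, sub_self]
      · rw [map_mul, h2, h2]; exact R.hH _ _ hz
      · rw [map_mul, h2, h2]; exact R.hV _ _ hz
    · intro h
      refine ⟨?_, ?_, ?_, ?_, fun c hc k hk => ?_, fun s t hz => ?_, fun s t hz => ?_⟩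
      · have := h (o x - 1) (by simp)
        rw [map_sub, h1, map_one] at this
        simpa [sub_eq_zero] using this
      · have := h (o y - 1) (by simp)
        rw [map_sub, h1, map_one] at this
        simpa [sub_eq_zero] using this
      · have := h p (by simp)
        rwa [map_natCast] at this
      · have := h (o (a ^ (p - 1)) - 1) (Or.inl (Or.inl (Or.inl (by simp))))
        rw [map_sub, h1, map_one, LinearMap.sub_apply, sub_eq_zero] at this
        exact this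
      · have := h _ (Or.inl (Or.inl (Or.inr ⟨(c, k), ⟨hc, hk⟩, rfl⟩)))
        rwa [map_sub, h1, h1, LinearMap.sub_apply, sub_eq_zero] at this
      · have := h _ (Or.inl (Or.inr ⟨(s, t), hz, rfl⟩))
        rwa [map_mul, h2, h2] at this
      · have := h _ (Or.inr ⟨(s, t), hz, rfl⟩)
        rwa [map_mul, h2, h2] at this

theorem intertwine {G V N : Type} [Group G] [AddCommGroup V] [AddCommGroup N]
    (ρ : Representation ℤ G V) (σ : Representation ℤ G N) (f : V →ₗ[ℤ] N)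
    (hf : ∀ g v, f (ρ g v) = σ g (f v)) (τ : MonoidAlgebra ℤ G) (v : V) :
    f (ρ.asAlgebraHom τ v) = σ.asAlgebraHom τ (f v) := by
  induction τ using MonoidAlgebra.induction_linear with
  | zero => simp
  | add s t hs ht => simp [hs, ht]
  | single g r => simp [hf]

/-- The second derived subgroup written additively. -/
structure Env (G V : Type) [Group G] [AddCommGroup V] where
  ρ : Representation ℤ G V
  j : V → G
  j_add : ∀ v w, j (v + w) = j v * j w
  j_inj : Function.Injective j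
  j_conj : ∀ g v, j (ρ g v) = g * j v * g⁻¹
  j_mem : ∀ g, g ∈ derivedSeries G 2 ↔ ∃ v, j v = g

namespace Env

variable {G V : Type} [Group G] [AddCommGroup V] (E : Env G V)

theorem j_zero : E.j 0 = 1 := by simpa using E.j_add 0 0

theorem j_neg (v : V) : E.j (-v) = (E.j v)⁻¹ := by
  rw [eq_inv_iff_mul_eq_one, ← E.j_add, neg_add_cancel, j_zero]

theorem j_sub (v w : V) : E.j (v - w) = E.j v * (E.j w)⁻¹ := by
  rw [sub_eq_add_neg, E.j_add, j_neg]

theorem j_nsmul (n : ℕ) (v : V) : E.j (n • v) = E.j v ^ n := by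
  induction n with
  | zero => simp [j_zero]
  | succ n ih => rw [succ_nsmul, E.j_add, ih, pow_succ]

theorem rho_j (v : V) : E.ρ (E.j v) = 1 := by
  ext w
  apply E.j_inj
  rw [E.j_conj, ← E.j_add, add_comm, E.j_add]
  simp

theorem rho_K : ∀ k ∈ derivedSeries G 2, E.ρ k = 1 := by
  intro k hk
  obtain ⟨v, rfl⟩ := (E.j_mem k).1 hk
  exact E.rho_j v

def Inv (U : Submodule ℤ V) : Prop := ∀ g, U ≤ U.comap (E.ρ g)

def C : Subring (Module.End ℤ V) := Subring.closure (E.ρ '' (commutator G : Set G))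

theorem C_pres {U : Submodule ℤ V} (hU : E.Inv U) {ν : Module.End ℤ V} (hν : ν ∈ E.C) :
    ∀ v ∈ U, ν v ∈ U := by
  induction hν using Subring.closure_induction with
  | mem _ h => obtain ⟨g, -, rfl⟩ := h; exact fun v hv => hU g hv
  | zero => intro v _; simp
  | one => intro v hv; simpa using hv
  | add _ _ _ _ a b => exact fun v hv => U.add_mem (a v hv) (b v hv)
  | neg _ _ a => exact fun v hv => U.neg_mem (a v hv)
  | mul _ _ _ _ a b => exact fun v hv => a _ (b v hv)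

theorem C_comm {μ ν : Module.End ℤ V} (hμ : μ ∈ E.C) (hν : ν ∈ E.C) : μ * ν = ν * μ := by
  have : IsMulCommutative E.C := Subring.isMulCommutative_closure (by
    rintro _ ⟨c, hc, rfl⟩ _ ⟨d, hd, rfl⟩
    exact comm_of_mem_commutator E.ρ E.rho_K hc hd)
  exact setLike_mul_comm hμ hν

theorem C_conj (g : G) {ν : Module.End ℤ V} (hν : ν ∈ E.C) : conjHom E.ρ g ν ∈ E.C := by
  have : E.C ≤ E.C.comap (conjHom E.ρ g) := Subring.closure_le.2 (by
    rintro _ ⟨c, hc, rfl⟩
    change conjHom E.ρ g (E.ρ c) ∈ E.C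
    rw [conjHom_apply]
    exact Subring.subset_closure ⟨_, Subgroup.Normal.conj_mem inferInstance c hc g, rfl⟩)
  exact this hν

theorem exists_nu {p : ℕ} [hp : Fact p.Prime] {Hor Ver : ZMod p → ZMod p → Prop}
    (hap : Aperiodic Hor Ver) (x y a : G) (hgen : Subgroup.closure {x, y, a} = ⊤)
    (U0 : Submodule ℤ V) (h0 : E.Inv U0) (e : V ⧸ U0)
    (hspan : Submodule.span ℤ (Set.range fun g => E.ρ.quotient U0 h0 g e) = ⊤)
    (R : Rels Hor Ver (E.ρ.quotient U0 h0) x y a e)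
    (U U1 : Submodule ℤ V) (hU : E.Inv U) (h1 : E.Inv U1) (n : ℕ) (hn : 0 < n)
    (hx : ∀ u ∈ U, E.ρ (x ^ n) u - u ∈ U1) (hy : ∀ u ∈ U, E.ρ (y ^ n) u - u ∈ U1) :
    ∃ ν ∈ E.C, (∀ v, ν v ∈ U0) ∧ ∀ u ∈ U, ν u - u ∈ U1 := by
  set σ := E.ρ.quotient U0 h0 with hσ
  have hmk : ∀ g v, σ g (U0.mkQ v) = U0.mkQ (E.ρ g v) := fun g v => rfl
  have hK : ∀ k ∈ derivedSeries G 2, σ k = 1 := by
    intro k hk
    ext v
    simp [hσ, E.rho_K k hk]
  obtain ⟨hp0, hpow, hJ⟩ := rels_main hap σ x y a e hgen hspan hK R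
  have hpv : ∀ v : V, (p : ℤ) • v ∈ U0 := by
    intro v
    rw [← Submodule.Quotient.mk_eq_zero, ← Submodule.mkQ_apply, map_smul]
    have := congrArg (fun T : Module.End ℤ (V ⧸ U0) => T (U0.mkQ v)) hp0
    simpa using this
  let B : Subgroup G :=
    { carrier := {g | ∀ u ∈ U, E.ρ g u - u ∈ U1}
      one_mem' := fun u _ => by simp
      mul_mem' := fun {c d} hc hd u hu => by
        have : E.ρ (c * d) u - u = (E.ρ c (E.ρ d u) - E.ρ d u) + (E.ρ d u - u) := by simp
        rw [this]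
        exact U1.add_mem (hc _ (hU d hu)) (hd u hu)
      inv_mem' := fun {c} hc u hu => by
        have := U1.neg_mem (hc _ (hU c⁻¹ hu))
        simpa using this }
  have hBn : B.Normal := ⟨fun d hd g u hu => by
    have : E.ρ (g * d * g⁻¹) u - u = E.ρ g (E.ρ d (E.ρ g⁻¹ u) - E.ρ g⁻¹ u) := by simp
    rw [this]
    exact h1 g (hd _ (hU g⁻¹ hu))⟩
  let J : AddSubgroup (Module.End ℤ (V ⧸ U0)) :=
    { carrier := {T | ∃ ν ∈ E.C, (∃ c : ℤ, IsCoprime c p ∧ ∀ u ∈ U, ν u - c • u ∈ U1) ∧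
        ∀ v w, U0.mkQ w = T v → ν w ∈ U0}
      zero_mem' := ⟨1, one_mem _, ⟨1, isCoprime_one_left, fun u _ => by simp⟩, fun v w h => by
        simpa using h⟩
      add_mem' := by
        rintro T T' ⟨ν, hν, ⟨c, hc, hu⟩, hT⟩ ⟨ν', hν', ⟨c', hc', hu'⟩, hT'⟩
        refine ⟨ν * ν', mul_mem hν hν', ⟨c * c', hc.mul_left hc', fun u huU => ?_⟩,
          fun v w h => ?_⟩
        · have : (ν * ν') u - (c * c') • u = ν (ν' u - c' • u) + c' • (ν u - c • u) := by
            simp only [Module.End.mul_apply, map_sub, map_smul, smul_sub, smul_smul, mul_comm c c']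
            abel
          rw [this]
          exact U1.add_mem (E.C_pres h1 hν _ (hu' u huU)) (U1.smul_mem _ (hu u huU))
        · obtain ⟨w1, hw1⟩ := U0.mkQ_surjective (T v)
          have a1 := hT v w1 hw1
          have a2 := hT' v (w - w1) (by rw [map_sub, h, hw1]; simp)
          have : (ν * ν') w = (ν' * ν) w1 + ν (ν' (w - w1)) := by
            rw [← E.C_comm hν hν']; simp
          rw [this]
          exact U0.add_mem (E.C_pres h0 hν' _ a1) (E.C_pres h0 hν _ a2)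
      neg_mem' := by
        rintro T ⟨ν, hν, hc, hT⟩
        refine ⟨ν, hν, hc, fun v w h => hT (-v) w (by simpa using h)⟩ }
  have hgenJ : ∀ u ∈ B, ∀ z ∈ Subgroup.normalClosure {a}, σ ⁅u, z⁆ - 1 ∈ J := by
    intro u hu z hz
    have hdB : ⁅u, z⁆ ∈ B := by
      have : ⁅u, z⁆ = u * (z * u⁻¹ * z⁻¹) := by rw [commutatorElement_def]; group
      rw [this]
      exact B.mul_mem hu (hBn.conj_mem _ (B.inv_mem hu) z)
    have hdA : ⁅u, z⁆ ∈ Subgroup.normalClosure {a} := by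
      rw [commutatorElement_def]
      exact mul_mem (Subgroup.Normal.conj_mem inferInstance z hz u) (inv_mem hz)
    refine ⟨∑ k ∈ Finset.range (p - 1), E.ρ ⁅u, z⁆ ^ k, ?_, ⟨(p - 1 : ℕ), ?_, fun v hv => ?_⟩,
      fun v w h => ?_⟩
    · have : E.ρ ⁅u, z⁆ ∈ E.C := Subring.subset_closure ⟨_, comm_mem _ _, rfl⟩
      exact sum_mem fun k _ => pow_mem this k
    · rw [Nat.cast_sub hp.out.one_le]
      exact ⟨-1, 1, by simp⟩
    · have : (∑ k ∈ Finset.range (p - 1), E.ρ ⁅u, z⁆ ^ k) v - ((p - 1 : ℕ) : ℤ) • v =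
          ∑ k ∈ Finset.range (p - 1), (E.ρ (⁅u, z⁆ ^ k) v - v) := by
        simp [LinearMap.sum_apply]
      rw [this]
      exact U1.sum_mem fun k _ => B.pow_mem hdB k v hv
    · rw [← Submodule.Quotient.mk_eq_zero, ← Submodule.mkQ_apply]
      have : U0.mkQ ((∑ k ∈ Finset.range (p - 1), E.ρ ⁅u, z⁆ ^ k) w) =
          (∑ k ∈ Finset.range (p - 1), σ ⁅u, z⁆ ^ k) (U0.mkQ w) := by
        simp only [LinearMap.sum_apply, map_sum, ← map_pow, hmk]
      rw [this, h, ← Module.End.mul_apply, geom_sum_mul, hpow _ hdA, sub_self, LinearMap.zero_apply]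
  obtain ⟨ν, hν, ⟨c, ⟨s, t, hst⟩, hu⟩, hT⟩ := hJ J
    (fun T ⟨ν, hν, hc, hT⟩ W => ⟨ν, hν, hc, fun v w h => hT (W v) w h⟩) n hn
    (hgenJ _ hx) (hgenJ _ hy)
  refine ⟨s • ν + ((t * p : ℤ) : Module.End ℤ V), add_mem (zsmul_mem hν s) (intCast_mem _ _),
    fun v => ?_, fun u huU => ?_⟩
  · have : (s • ν + ((t * p : ℤ) : Module.End ℤ V)) v = s • ν v + t • (p : ℤ) • v := by
      rw [LinearMap.add_apply, Module.End.intCast_apply, LinearMap.smul_apply, mul_smul]
    rw [this]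
    exact U0.add_mem (U0.smul_mem _ (hT _ v rfl)) (U0.smul_mem _ (hpv v))
  · have : (s • ν + ((t * p : ℤ) : Module.End ℤ V)) u - u = s • (ν u - c • u) := by
      have e : u = (s * c + t * p) • u := by rw [hst, one_smul]
      rw [LinearMap.add_apply, Module.End.intCast_apply, LinearMap.smul_apply, smul_sub, smul_smul]
      conv_lhs => rw [e]
      rw [← e]
      nth_rewrite 3 [e]
      rw [add_smul]
      abel
    rw [this]
    exact U1.smul_mem _ (hu u huU)

end Env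

end Pool.Agent.Lib.MP_fcd4e5_al
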