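import Pool.Agent.Lib.MP_fcd4e5_al.Tiles

set_option autoImplicit false

namespace Pool.Agent.Lib.MP_fcd4e5_al

open scoped commutatorElement

open scoped IsMulCommutative in
theorem key' {p : ℕ} [hp : Fact p.Prime] {Hor Ver : ZMod p → ZMod p → Prop}
    (hap : Aperiodic Hor Ver) {A : Type} [Ring A] (β : ℤ × ℤ → A)
    (hc : ∀ g h, β g * β h = β h * β g) (h0 : (p : A) = 0)
    (hm : ∀ g, β g ^ (p - 1) = 1)
    (hH : ∀ i j s t, ¬ Hor s t → ind s (β (i, j)) * ind t (β (i + 1, j)) = 0)
    (hV : ∀ i j s t, ¬ Ver s t → ind s (β (i, j)) * ind t (β (i, j + 1)) = 0)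
    (J : AddSubgroup A) (hJ : ∀ T ∈ J, ∀ g, T * β g ∈ J) (n : ℕ) (hn : 0 < n)
    (h1 : ∀ i j, (β (i + n, j) - β (i, j)) ^ 2 ∈ J)
    (h2 : ∀ i j, (β (i, j + n) - β (i, j)) ^ 2 ∈ J) : (1 : A) ∈ J := by
  set Λ := Subring.closure (Set.range β) with hΛ
  have : IsMulCommutative Λ := Subring.isMulCommutative_closure (by
    rintro _ ⟨g, rfl⟩ _ ⟨h, rfl⟩; exact hc g h)
  have hJ' : ∀ U ∈ Λ, ∀ T ∈ J, T * U ∈ J := by
    intro U hU
    induction hU using Subring.closure_induction with
    | mem U hU => obtain ⟨g, rfl⟩ := hU; exact fun T hT => hJ T hT g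
    | zero => intro T _; simp
    | one => intro T hT; simpa using hT
    | add U U' _ _ a b => intro T hT; rw [mul_add]; exact J.add_mem (a T hT) (b T hT)
    | neg U _ a => intro T hT; rw [mul_neg]; exact J.neg_mem (a T hT)
    | mul U U' _ _ a b => intro T hT; rw [← mul_assoc]; exact b _ (a T hT)
  let I : Ideal Λ :=
    { carrier := {l | (l : A) ∈ J}
      add_mem' := fun ha hb => J.add_mem ha hb
      zero_mem' := J.zero_mem
      smul_mem' := fun c l hl => by
        have : c • l = l * c := mul_comm c l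
        rw [this]
        exact hJ' c c.2 l hl }
  let b : ℤ × ℤ → Λ := fun g => ⟨β g, Subring.subset_closure ⟨g, rfl⟩⟩
  have hi : ∀ (s : ZMod p) g, ((ind s (b g) : Λ) : A) = ind s (β g) := fun s g =>
    map_ind Λ.subtype s (b g)
  have := key hap b (Subtype.ext (by simpa using h0)) (fun g => Subtype.ext (by simpa using hm g))
    (fun i j s t h => Subtype.ext (by simpa [hi] using hH i j s t h))
    (fun i j s t h => Subtype.ext (by simpa [hi] using hV i j s t h)) I n hn
    (fun i j => h1 i j) (fun i j => h2 i j)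
  have h1 : (1 : Λ) ∈ I := this ▸ Submodule.mem_top
  exact h1

theorem comm_of_mem_commutator {G M : Type} [Group G] [Monoid M] (σ : G →* M)
    (hK : ∀ k ∈ derivedSeries G 2, σ k = 1) {c d : G} (hc : c ∈ commutator G)
    (hd : d ∈ commutator G) : σ c * σ d = σ d * σ c := by
  have : σ ⁅c, d⁆ = 1 := hK _ (Subgroup.commutator_mem_commutator hc hd)
  have e : c * d = ⁅c, d⁆ * (d * c) := by rw [commutatorElement_def]; group
  rw [← map_mul, ← map_mul, e, map_mul, this, one_mul]

theorem comm_mem {G : Type} [Group G] (a b : G) : ⁅a, b⁆ ∈ commutator G :=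
  Subgroup.commutator_mem_commutator (Subgroup.mem_top a) (Subgroup.mem_top b)

/-- In the image, the normal closure of `a` is commutative. -/
theorem closure_comm {G M : Type} [Group G] [Monoid M] (σ : G →* M) (x y a : G)
    (hgen : Subgroup.closure {x, y, a} = ⊤) (hK : ∀ k ∈ derivedSeries G 2, σ k = 1)
    (h1 : σ ⁅x, y⁆ = 1) (h2 : σ ⁅a, ⁅a, x⁆⁆ = 1) (h3 : σ ⁅a, ⁅a, y⁆⁆ = 1) :
    ∀ z ∈ Subgroup.normalClosure {a}, ∀ z' ∈ Subgroup.normalClosure {a},
      σ z * σ z' = σ z' * σ z := by
  have cm : ∀ {c d : G}, σ ⁅c, d⁆ = 1 → σ c * σ d = σ d * σ c := by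
    intro c d h
    have e : c * d = ⁅c, d⁆ * (d * c) := by rw [commutatorElement_def]; group
    rw [← map_mul, ← map_mul, e, map_mul, h, one_mul]
  let Y : Subgroup G :=
    { carrier := {d | d ∈ commutator G ∧ σ (a * d) = σ (d * a)}
      one_mem' := ⟨one_mem _, by simp⟩
      mul_mem' := fun {c d} hc hd => ⟨mul_mem hc.1 hd.1, by
        rw [← mul_assoc, map_mul, hc.2, ← map_mul, mul_assoc, map_mul, hd.2, ← map_mul, mul_assoc]⟩
      inv_mem' := fun {c} hc => ⟨inv_mem hc.1, by
        have e1 : a * c⁻¹ = c⁻¹ * (c * a) * c⁻¹ := by group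
        have e2 : c⁻¹ * a = c⁻¹ * (a * c) * c⁻¹ := by group
        rw [e1, e2]; simp only [map_mul σ (c⁻¹ * _), map_mul σ c⁻¹, hc.2]⟩ }
  have hYn : Y.Normal := ⟨fun d hd g => ⟨Subgroup.Normal.conj_mem inferInstance d hd.1 g, by
    have e1 : a * (g * d * g⁻¹) = g * (⁅g⁻¹, a⁆ * (a * d)) * g⁻¹ := by
      rw [commutatorElement_def]; group
    have e2 : g * d * g⁻¹ * a = g * (d * ⁅g⁻¹, a⁆ * a) * g⁻¹ := by
      rw [commutatorElement_def]; group
    have e3 := comm_of_mem_commutator σ hK (comm_mem g⁻¹ a) hd.1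
    have e4 : σ (⁅g⁻¹, a⁆ * (a * d)) = σ (d * ⁅g⁻¹, a⁆ * a) := by
      rw [map_mul, hd.2, map_mul, ← mul_assoc, e3, map_mul, map_mul]
    rw [e1, e2, map_mul, map_mul, e4, ← map_mul, ← map_mul]⟩⟩
  have m1 : ⁅x, y⁆ ∈ Y := ⟨comm_mem _ _, by simp only [map_mul, h1, one_mul, mul_one]⟩
  have m2 : ⁅a, x⁆ ∈ Y := ⟨comm_mem _ _, by simpa only [map_mul] using cm h2⟩
  have m3 : ⁅a, y⁆ ∈ Y := ⟨comm_mem _ _, by simpa only [map_mul] using cm h3⟩
  have hY : commutator G ≤ Y := by
    set π := QuotientGroup.mk' Y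
    have hq : ∀ {c d : G}, ⁅c, d⁆ ∈ Y → π c * π d = π d * π c := by
      intro c d h
      rw [← commutatorElement_eq_one_iff_mul_comm, ← map_commutatorElement]
      exact (QuotientGroup.eq_one_iff _).2 h
    have ht : Subgroup.closure (π '' {x, y, a}) = ⊤ := by
      rw [← MonoidHom.map_closure, hgen]
      exact Subgroup.map_top_of_surjective _ (QuotientGroup.mk'_surjective Y)
    have hcm := Subgroup.isMulCommutative_closure (k := π '' {x, y, a}) (by
      rintro _ ⟨c, hc, rfl⟩ _ ⟨d, hd, rfl⟩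
      simp only [Set.mem_insert_iff, Set.mem_singleton_iff] at hc hd
      rcases hc with rfl | rfl | rfl <;> rcases hd with rfl | rfl | rfl <;>
        first | rfl | exact hq m1 | exact hq m2 | exact hq m3 | exact (hq m1).symm
              | exact (hq m2).symm | exact (hq m3).symm)
    rw [commutator_def, Subgroup.commutator_le]
    intro c _ d _
    rw [← QuotientGroup.eq_one_iff]
    change π ⁅c, d⁆ = 1
    rw [map_commutatorElement, commutatorElement_eq_one_iff_mul_comm]
    exact setLike_mul_comm (s := Subgroup.closure (π '' {x, y, a})) (ht ▸ Subgroup.mem_top _)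
      (ht ▸ Subgroup.mem_top _)
  have ha : ∀ d ∈ commutator G, σ a * σ d = σ d * σ a := fun d hd => by
    simpa only [map_mul] using (hY hd).2
  have haz : ∀ (k : ℤ), ∀ d ∈ commutator G, σ (a ^ k) * σ d = σ d * σ (a ^ k) := by
    intro k d hd
    have : Commute (σ.toHomUnits a) (σ.toHomUnits d) := Units.ext (ha d hd)
    have := congrArg Units.val (this.zpow_left k).eq
    rw [← map_zpow] at this
    exact this
  have hdec : ∀ z ∈ Subgroup.normalClosure {a}, ∃ d ∈ commutator G, ∃ k : ℤ, z = d * a ^ k := by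
    intro z hz
    have hn : (commutator G ⊔ Subgroup.zpowers a).Normal :=
      Subgroup.Normal.of_commutator_le _ le_sup_left
    have : Subgroup.normalClosure {a} ≤ commutator G ⊔ Subgroup.zpowers a :=
      Subgroup.normalClosure_le_normal (by
        rintro _ rfl; exact Subgroup.mem_sup_right (Subgroup.mem_zpowers _))
    have hz' : z ∈ ((commutator G ⊔ Subgroup.zpowers a : Subgroup G) : Set G) := this hz
    rw [Subgroup.normal_mul] at hz'
    obtain ⟨d, hd, _, ⟨k, rfl⟩, rfl⟩ := hz'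
    exact ⟨d, hd, k, rfl⟩
  intro z hz z' hz'
  obtain ⟨d, hd, k, rfl⟩ := hdec z hz
  obtain ⟨d', hd', k', rfl⟩ := hdec z' hz'
  have c1 : Commute (σ d) (σ d') := comm_of_mem_commutator σ hK hd hd'
  have c2 : Commute (σ (a ^ k)) (σ d') := haz k d' hd'
  have c3 : Commute (σ (a ^ k')) (σ d) := haz k' d hd
  have c4 : Commute (σ (a ^ k)) (σ (a ^ k')) := by
    rw [Commute, SemiconjBy, ← map_mul, ← map_mul, zpow_mul_comm]
  rw [map_mul, map_mul]
  exact ((c1.mul_right c3.symm).mul_left (c2.mul_right c4)).eq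

section cyc

variable {G N : Type} [Group G] [AddCommGroup N] (σ : Representation ℤ G N) (x y a : G) (e : N)

theorem end_ext (hspan : Submodule.span ℤ (Set.range fun g => σ g e) = ⊤)
    (T : Module.End ℤ N) (h : ∀ g, T (σ g e) = 0) : T = 0 := by
  have : Submodule.span ℤ (Set.range fun g => σ g e) ≤ LinearMap.ker T :=
    Submodule.span_le.2 (by rintro _ ⟨g, rfl⟩; exact h g)
  rw [hspan] at this
  ext v
  exact this Submodule.mem_top

theorem orbit_dec (hgen : Subgroup.closure {x, y, a} = ⊤) (hx : σ x e = e) (hy : σ y e = e)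
    (g : G) : ∃ z ∈ Subgroup.normalClosure {a}, σ g e = σ z e := by
  let St : Subgroup G :=
    { carrier := {u | σ u e = e}
      one_mem' := by simp
      mul_mem' := fun {c d} hc hd => by
        simp only [Set.mem_ofPred_eq, map_mul, Module.End.mul_apply] at *
        rw [hd, hc]
      inv_mem' := fun {c} hc => by
        simp only [Set.mem_ofPred_eq] at *
        conv_lhs => rw [← hc]
        simp }
  have : Subgroup.normalClosure {a} ⊔ St = ⊤ := by
    rw [eq_top_iff, ← hgen, Subgroup.closure_le]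
    rintro c (rfl | rfl | rfl)
    · exact Subgroup.mem_sup_right hx
    · exact Subgroup.mem_sup_right hy
    · exact Subgroup.mem_sup_left (Subgroup.subset_normalClosure rfl)
  have hg : g ∈ ((Subgroup.normalClosure {a} ⊔ St : Subgroup G) : Set G) := by
    rw [this]; trivial
  rw [Subgroup.normal_mul] at hg
  obtain ⟨z, hz, u, hu, rfl⟩ := hg
  refine ⟨z, hz, ?_⟩
  have hu' : σ u e = e := hu
  simp [hu']

theorem acts_trivially (hgen : Subgroup.closure {x, y, a} = ⊤)
    (hspan : Submodule.span ℤ (Set.range fun g => σ g e) = ⊤)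
    (hK : ∀ k ∈ derivedSeries G 2, σ k = 1) (hx : σ x e = e) (hy : σ y e = e) (m : ℕ) (hm : 0 < m)
    (ha : σ (a ^ m) e = e) (c : G) (hc : c ∈ commutator G)
    (h : ∀ k < m, σ (c * a ^ k) e = σ (a ^ k) e) : σ c = 1 := by
  rw [← sub_eq_zero]
  refine end_ext σ e hspan _ fun g => ?_
  obtain ⟨z, hz, hg⟩ := orbit_dec σ x y a e hgen hx hy g
  have hn : (commutator G ⊔ Subgroup.zpowers a).Normal :=
    Subgroup.Normal.of_commutator_le _ le_sup_left
  have : Subgroup.normalClosure {a} ≤ commutator G ⊔ Subgroup.zpowers a :=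
    Subgroup.normalClosure_le_normal (by
      rintro _ rfl; exact Subgroup.mem_sup_right (Subgroup.mem_zpowers _))
  have hz' : z ∈ ((commutator G ⊔ Subgroup.zpowers a : Subgroup G) : Set G) := this hz
  rw [Subgroup.normal_mul] at hz'
  obtain ⟨d, hd, _, ⟨k, rfl⟩, rfl⟩ := hz'
  have hq : ∀ q : ℤ, σ ((a ^ m) ^ q) e = e := by
    intro q
    induction q using Int.induction_on with
    | zero => simp
    | succ q ih => rw [zpow_add_one, map_mul, Module.End.mul_apply, ha, ih]
    | pred q ih =>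
      have : σ (a ^ m)⁻¹ e = e := by
        conv_lhs => rw [← ha]
        exact σ.inv_self_apply _ _
      rw [zpow_sub_one, map_mul, Module.End.mul_apply, this, ih]
  have hm' : (0 : ℤ) < m := by exact_mod_cast hm
  have hk : σ (a ^ k) e = σ (a ^ (k % m).toNat) e := by
    have : a ^ k = a ^ (k % m).toNat * (a ^ m) ^ (k / m) := by
      rw [← zpow_natCast, ← zpow_natCast, ← zpow_mul, ← zpow_add,
        Int.toNat_of_nonneg (Int.emod_nonneg _ hm'.ne'), Int.emod_add_mul_ediv]
    rw [this, map_mul, Module.End.mul_apply, hq]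
  have hlt : (k % m).toNat < m := by
    have := Int.emod_lt_of_pos k hm'
    have := Int.emod_nonneg k hm'.ne'
    omega
  have h' := h _ hlt
  have cc := comm_of_mem_commutator σ hK hc hd
  simp only [map_mul, Module.End.mul_apply] at h' hg
  rw [hg, LinearMap.sub_apply, Module.End.one_apply, hk, ← Module.End.mul_apply (σ c), cc,
    Module.End.mul_apply, h', sub_self]

theorem zero_of_comm (hgen : Subgroup.closure {x, y, a} = ⊤)
    (hspan : Submodule.span ℤ (Set.range fun g => σ g e) = ⊤) (hx : σ x e = e) (hy : σ y e = e)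
    (T : Module.End ℤ N) (hT : ∀ z ∈ Subgroup.normalClosure {a}, Commute T (σ z)) (h : T e = 0) :
    T = 0 := by
  refine end_ext σ e hspan _ fun g => ?_
  obtain ⟨z, hz, hg⟩ := orbit_dec σ x y a e hgen hx hy g
  rw [hg, ← Module.End.mul_apply, (hT z hz).eq, Module.End.mul_apply, h, map_zero]

end cyc

end Pool.Agent.Lib.MP_fcd4e5_al
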