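import Mathlib

set_option autoImplicit false

namespace Pool.Agent.Lib.MP_fcd4e5_al

open scoped commutatorElement

section chain

variable {ι : Type} (Y : Type) [MulAction (FreeGroup ι) Y] (R : Type) [Ring R]

noncomputable def step (i : ι) : Equiv.Perm ((Y × ι →₀ R) × Y) where
  toFun z := (z.1 + Finsupp.single (z.2, i) 1, FreeGroup.of i • z.2)
  invFun z := (z.1 - Finsupp.single ((FreeGroup.of i)⁻¹ • z.2, i) 1, (FreeGroup.of i)⁻¹ • z.2)
  left_inv z := by simp
  right_inv z := by simp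

noncomputable def mu : FreeGroup ι →* Equiv.Perm ((Y × ι →₀ R) × Y) := FreeGroup.lift (step Y R)

variable {Y}

noncomputable def ch (w : FreeGroup ι) (q : Y) : Y × ι →₀ R := (mu Y R w (0, q)).1

theorem mu_apply (w : FreeGroup ι) : ∀ (c : Y × ι →₀ R) (q : Y),
    mu Y R w (c, q) = (c + ch R w q, w • q) := by
  unfold ch
  induction w with
  | C1 => intro c q; simp
  | of i => intro c q; simp [mu, step]
  | inv_of i _ =>
    intro c q
    simp only [mu, map_inv, FreeGroup.lift_apply_of, Equiv.Perm.inv_def]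
    simp [step, sub_eq_add_neg]
  | mul v w hv hw =>
    intro c q
    simp only [map_mul, Equiv.Perm.mul_apply]
    rw [hw c q, hw 0 q, hv, hv (0 + _), mul_smul]
    simp [add_assoc]

theorem ch_mul (v w : FreeGroup ι) (q : Y) : ch R (v * w) q = ch R w q + ch R v (w • q) := by
  have : mu Y R (v * w) (0, q) = mu Y R v (mu Y R w (0, q)) := by simp
  rw [mu_apply, mu_apply, mu_apply] at this
  simpa using congrArg Prod.fst this

theorem ch_of (i : ι) (q : Y) : ch R (FreeGroup.of i) q = Finsupp.single (q, i) 1 := by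
  simp [ch, mu, step]

theorem cocycle_ext {A : Type} [AddCommGroup A] (f g : FreeGroup ι → Y → A)
    (hf : ∀ v w q, f (v * w) q = f w q + f v (w • q))
    (hg : ∀ v w q, g (v * w) q = g w q + g v (w • q))
    (h : ∀ i q, f (FreeGroup.of i) q = g (FreeGroup.of i) q) (w : FreeGroup ι) :
    ∀ q, f w q = g w q := by
  have f1 : ∀ q, f 1 q = 0 := fun q => by simpa using hf 1 1 q
  have g1 : ∀ q, g 1 q = 0 := fun q => by simpa using hg 1 1 q
  induction w with
  | C1 => intro q; rw [f1, g1]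
  | of i => exact h i
  | inv_of i _ =>
    intro q
    have a := hf (FreeGroup.of i) (FreeGroup.of i)⁻¹ q
    have b := hg (FreeGroup.of i) (FreeGroup.of i)⁻¹ q
    rw [mul_inv_cancel, f1, h] at a
    rw [mul_inv_cancel, g1] at b
    exact add_right_cancel (a.symm.trans b)
  | mul v w hv hw => intro q; rw [hf, hg, hv, hw]

theorem mu_commutator (S : Subgroup (FreeGroup ι)) (hS : ∀ s ∈ S, ∀ q : Y, s • q = q) :
    ∀ c ∈ ⁅S, S⁆, mu Y R c = 1 := by
  have : ⁅S, S⁆ ≤ (mu Y R).ker := by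
    rw [Subgroup.commutator_le]
    intro s hs t ht
    rw [MonoidHom.mem_ker, map_commutatorElement, commutatorElement_eq_one_iff_mul_comm]
    ext1 ⟨c, q⟩
    simp only [Equiv.Perm.mul_apply, mu_apply, hS s hs, hS t ht]
    rw [add_right_comm]
  exact fun c hc => this hc

theorem ch_pow (s : FreeGroup ι) (q : Y) (hs : s • q = q) (n : ℕ) :
    ch R (s ^ n) q = n • ch R s q := by
  induction n with
  | zero => simp [ch]
  | succ n ih => rw [pow_succ, ch_mul, hs, ih, succ_nsmul']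

end chain

section magnus

variable {ι : Type} (S : Subgroup (FreeGroup ι)) [S.Normal]

theorem smul_quot (w : FreeGroup ι) (q : FreeGroup ι ⧸ S) : w • q = (w : FreeGroup ι ⧸ S) * q := by
  induction q using QuotientGroup.induction_on with
  | H z => rfl

theorem smul_fix (s : FreeGroup ι) (hs : s ∈ S) (q : FreeGroup ι ⧸ S) : s • q = q := by
  rw [smul_quot, (QuotientGroup.eq_one_iff s).2 hs, one_mul]

noncomputable def elt (w : FreeGroup ι) (q : FreeGroup ι ⧸ S) : S :=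
  ⟨(w • q).out⁻¹ * w * q.out, by
    rw [← QuotientGroup.eq_one_iff]
    simp [smul_quot, mul_assoc]⟩

theorem magnus (w : FreeGroup ι) (hw : w ∈ S) (n : ℕ)
    (h : ∀ e, (n : ℤ) ∣ ch ℤ w (1 : FreeGroup ι ⧸ S) e) :
    ∃ s ∈ S, ∃ c ∈ ⁅S, S⁆, w = s ^ n * c := by
  classical
  set f : FreeGroup ι → FreeGroup ι ⧸ S → Additive (Abelianization S) :=
    fun w q => Additive.ofMul (Abelianization.of (elt S w q)) with hf
  set L : ((FreeGroup ι ⧸ S) × ι →₀ ℤ) →+ Additive (Abelianization S) :=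
    Finsupp.liftAddHom fun e => zmultiplesHom _ (f (FreeGroup.of e.2) e.1) with hL
  have key : ∀ w q, L (ch ℤ w q) = f w q := by
    refine cocycle_ext (fun w q => L (ch ℤ w q)) f ?_ ?_ ?_
    · intro v w q; rw [ch_mul, map_add]
    · intro v w q
      have : elt S (v * w) q = elt S v (w • q) * elt S w q := by
        ext; simp [elt, mul_smul, mul_assoc]
      simp only [hf, this, map_mul, ofMul_mul, add_comm]
    · intro i q; simp [ch_of, hL]
  obtain ⟨c', hc'⟩ : ∃ c' : (FreeGroup ι ⧸ S) × ι →₀ ℤ, ch ℤ w (1 : FreeGroup ι ⧸ S) = n • c' := by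
    refine ⟨Finsupp.mapRange (fun z => z / n) (by simp) (ch ℤ w (1 : FreeGroup ι ⧸ S)), ?_⟩
    ext e
    simp [Int.mul_ediv_cancel' (h e)]
  obtain ⟨s, hs⟩ : ∃ s : S, Abelianization.of s = Additive.toMul (L c') :=
    QuotientGroup.mk_surjective _
  have hτ : (1 : FreeGroup ι ⧸ S).out ∈ S := by
    rw [← QuotientGroup.eq_one_iff]; simp
  have e1 : elt S w 1 = (⟨_, hτ⟩ : S)⁻¹ * ⟨w, hw⟩ * ⟨_, hτ⟩ := by
    ext; simp [elt, smul_fix S w hw]
  have e2 : Abelianization.of (⟨w, hw⟩ : S) = Abelianization.of (s ^ n) := by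
    have := key w 1
    rw [hc', map_nsmul] at this
    have := congrArg Additive.toMul this
    rw [toMul_nsmul, ← hs] at this
    rw [map_pow, this]
    simp only [hf, e1, toMul_ofMul, map_mul, map_inv]
    rw [mul_right_comm, inv_mul_cancel, one_mul]
  have e3 : (s ^ n)⁻¹ * ⟨w, hw⟩ ∈ commutator S := by
    rw [← Abelianization.ker_of, MonoidHom.mem_ker, map_mul, map_inv, e2, inv_mul_cancel]
  refine ⟨s, s.2, ((s : FreeGroup ι) ^ n)⁻¹ * w, ?_, by simp⟩
  rw [← Subgroup.map_subtype_commutator]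
  exact ⟨_, e3, by simp⟩

theorem torsionFree (k s c : FreeGroup ι) (hk : k ∈ S) (hs : s ∈ S) (hc : c ∈ ⁅S, S⁆) (p : ℕ)
    (hp : p ≠ 0) (h : k ^ p = s ^ p * c) : k * s⁻¹ ∈ ⁅S, S⁆ := by
  have hc0 : ch ℤ c (1 : FreeGroup ι ⧸ S) = 0 := by
    simp [ch, mu_commutator ℤ S (smul_fix S) c hc]
  have hcS : c ∈ S := Subgroup.commutator_le_self S hc
  have e1 : p • ch ℤ k (1 : FreeGroup ι ⧸ S) = p • ch ℤ s (1 : FreeGroup ι ⧸ S) := by
    rw [← ch_pow ℤ k _ (smul_fix S k hk _), h, ch_mul, hc0, smul_fix S c hcS,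
      ch_pow ℤ s _ (smul_fix S s hs _), zero_add]
  have e2 : ch ℤ k (1 : FreeGroup ι ⧸ S) = ch ℤ s (1 : FreeGroup ι ⧸ S) := by
    ext e
    have := congrArg (fun z => z e) e1
    simpa [hp] using this
  have e3 : ch ℤ (k * s⁻¹) (1 : FreeGroup ι ⧸ S) = 0 := by
    have := ch_mul ℤ (k * s⁻¹) s (1 : FreeGroup ι ⧸ S)
    rw [inv_mul_cancel_right, smul_fix S s hs, e2] at this
    simpa using this
  obtain ⟨s', -, c', hc', e⟩ := magnus S (k * s⁻¹) (S.mul_mem hk (S.inv_mem hs)) 0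
    (fun e => by simp [e3])
  rw [e]; simpa using hc'

end magnus

/-- `S` is an intersection of kernels of maps to finite groups. -/
def Sep {F : Type} [Group F] (S : Subgroup F) : Prop :=
  ∀ w, w ∉ S → ∃ (P : Type) (_ : Group P) (_ : Finite P) (φ : F →* P),
    (∀ s ∈ S, φ s = 1) ∧ φ w ≠ 1

theorem Sep.finset {F : Type} [Group F] {S : Subgroup F} (h : Sep S) (T : Finset F)
    (hT : ∀ t ∈ T, t ∉ S) : ∃ (P : Type) (_ : Group P) (_ : Finite P) (φ : F →* P),
    (∀ s ∈ S, φ s = 1) ∧ ∀ t ∈ T, φ t ≠ 1 := by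
  classical
  induction T using Finset.induction_on with
  | empty => exact ⟨Unit, inferInstance, inferInstance, 1, fun _ _ => rfl, by simp⟩
  | insert a T _ ih =>
    obtain ⟨P, _, _, φ, h1, h2⟩ := ih fun t ht => hT t (Finset.mem_insert_of_mem ht)
    obtain ⟨P', _, _, φ', h1', h2'⟩ := h a (hT a (Finset.mem_insert_self _ _))
    refine ⟨P × P', inferInstance, inferInstance, φ.prod φ', fun s hs => ?_, fun t ht => ?_⟩
    · simp [h1 s hs, h1' s hs]
    · rcases Finset.mem_insert.1 ht with rfl | ht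
      · simp [h2']
      · simp [h2 t ht]

theorem sep_step {ι : Type} [Finite ι] (S : Subgroup (FreeGroup ι)) [S.Normal] (hS : Sep S) (n : ℕ)
    (w : FreeGroup ι) (hw : ¬ ∃ s ∈ S, ∃ c ∈ ⁅S, S⁆, w = s ^ n * c) :
    ∃ (P : Type) (_ : Group P) (_ : Finite P) (φ : FreeGroup ι →* P),
      (∀ c ∈ ⁅S, S⁆, φ c = 1) ∧ (∀ s ∈ S, φ (s ^ n) = 1) ∧ φ w ≠ 1 := by
  classical
  by_cases hwS : w ∈ S
  swap
  · obtain ⟨P, _, _, φ, h1, h2⟩ := hS w hwS
    exact ⟨P, inferInstance, inferInstance, φ,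
      fun c hc => h1 c (Subgroup.commutator_le_self S hc), fun s hs => h1 _ (S.pow_mem hs n), h2⟩
  obtain ⟨⟨q0, i0⟩, he⟩ : ∃ e, ¬ (n : ℤ) ∣ ch ℤ w (1 : FreeGroup ι ⧸ S) e := by
    by_contra h
    push Not at h
    exact hw (magnus S w hwS n h)
  obtain ⟨m, hm0, hmn, hm⟩ : ∃ m : ℕ, m ≠ 0 ∧ m ∣ n ∧
      ¬ (m : ℤ) ∣ ch ℤ w (1 : FreeGroup ι ⧸ S) (q0, i0) := by
    rcases Nat.eq_zero_or_pos n with rfl | hn
    · refine ⟨(ch ℤ w (1 : FreeGroup ι ⧸ S) (q0, i0)).natAbs + 1, by omega, dvd_zero _, ?_⟩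
      intro h
      have h0 : ch ℤ w (1 : FreeGroup ι ⧸ S) (q0, i0) ≠ 0 := by simpa using he
      have := Int.natAbs_le_of_dvd_ne_zero h h0
      rw [Int.natAbs_natCast] at this
      omega
    · exact ⟨n, hn.ne', dvd_refl _, he⟩
  have : NeZero m := ⟨hm0⟩
  set T : Finset (FreeGroup ι) := (((ch ℤ w (1 : FreeGroup ι ⧸ S)).support.filter
    (fun e => e.1 ≠ q0)).image fun e => e.1.out⁻¹ * q0.out) with hT
  obtain ⟨P, _, _, φ, h1, h2⟩ := hS.finset T (by
    intro t ht
    obtain ⟨e, he, rfl⟩ := Finset.mem_image.1 ht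
    rw [← QuotientGroup.eq]
    simpa using (Finset.mem_filter.1 he).2)
  let _ : MulAction (FreeGroup ι) P := MulAction.compHom P φ
  have hsm : ∀ (v : FreeGroup ι) (y : P), v • y = φ v * y := fun _ _ => rfl
  have hfix : ∀ s ∈ S, ∀ y : P, s • y = y := fun s hs y => by rw [hsm, h1 s hs, one_mul]
  set π : FreeGroup ι ⧸ S →* P := QuotientGroup.lift S φ h1 with hπ
  have hπo : ∀ q : FreeGroup ι ⧸ S, π q = φ q.out := fun q => by
    conv_lhs => rw [← q.out_eq]
    rfl
  set L : ((FreeGroup ι ⧸ S) × ι →₀ ℤ) →+ ZMod m :=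
    Finsupp.liftAddHom fun e =>
      zmultiplesHom _ (if (π e.1, e.2) = (π q0, i0) then (1 : ZMod m) else 0) with hL
  have key : ∀ (v : FreeGroup ι) (q : FreeGroup ι ⧸ S),
      L (ch ℤ v q) = ch (ZMod m) v (π q) (π q0, i0) := by
    refine cocycle_ext (fun v q => L (ch ℤ v q)) (fun v q => ch (ZMod m) v (π q) (π q0, i0))
      ?_ ?_ ?_
    · intro v w q; rw [ch_mul, map_add]
    · intro v w q
      have : π (w • q) = w • π q := by rw [smul_quot, map_mul, hsm]; rfl
      rw [ch_mul, this]; rfl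
    · intro i q; simp [ch_of, hL, Finsupp.single_apply]
  have hval : L (ch ℤ w (1 : FreeGroup ι ⧸ S)) =
      ((ch ℤ w (1 : FreeGroup ι ⧸ S) (q0, i0) : ℤ) : ZMod m) := by
    rw [hL, Finsupp.liftAddHom_apply, Finsupp.sum, Finset.sum_eq_single (q0, i0)]
    · simp
    · rintro ⟨q, i⟩ hb hne
      rw [if_neg]
      · simp
      · intro h
        obtain ⟨ha, hb'⟩ := Prod.mk.inj h
        have hq : q ≠ q0 := fun hq => hne (Prod.ext hq hb')
        refine h2 (q.out⁻¹ * q0.out) (Finset.mem_image.2 ⟨(q, i), Finset.mem_filter.2 ⟨hb, hq⟩, rfl⟩) ?_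
        rw [map_mul, map_inv, ← hπo, ← hπo, ha, inv_mul_cancel]
    · intro h
      rw [Finsupp.notMem_support_iff.1 h]; simp
  have : Finite (P × ι →₀ ZMod m) := Finite.of_injective _ DFunLike.coe_injective
  refine ⟨Equiv.Perm ((P × ι →₀ ZMod m) × P), inferInstance, inferInstance, mu P (ZMod m),
    mu_commutator _ S hfix, fun s hs => ?_, fun h => ?_⟩
  · ext1 ⟨c, y⟩
    rw [mu_apply, ch_pow _ s y (hfix s hs y), hfix _ (S.pow_mem hs n)]
    have : n • ch (ZMod m) s y = 0 := by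
      ext e
      simp [(ZMod.natCast_eq_zero_iff n m).2 hmn]
    simp [this]
  · apply hm
    rw [← ZMod.intCast_zmod_eq_zero_iff_dvd, ← hval, key]
    simp [ch, h]

theorem sep_derived {ι : Type} [Finite ι] (d : ℕ) : Sep (derivedSeries (FreeGroup ι) d) := by
  induction d with
  | zero => intro w hw; simp at hw
  | succ d ih =>
    intro w hw
    obtain ⟨P, _, _, φ, h1, -, h2⟩ := sep_step _ ih 0 w (by
      rintro ⟨s, -, c, hc, rfl⟩
      exact hw (by simpa using hc))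
    exact ⟨P, inferInstance, inferInstance, φ, h1, h2⟩

end Pool.Agent.Lib.MP_fcd4e5_al
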