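import Pool.Agent.Lib.MP_fcd4e5_al.Model
import Pool.Agent.Lib.MP_fcd4e5_al.Magnus

set_option autoImplicit false

namespace Pool.Agent.Lib.MP_fcd4e5_al

open scoped commutatorElement

open scoped IsMulCommutative in
theorem exists_env (G : Type) [Group G] (h : derivedSeries G 3 = ⊥) :
    ∃ (V : Type) (_ : AddCommGroup V), Nonempty (Env G V) := by
  have : IsMulCommutative (derivedSeries G 2) := .of_setLike_mul_comm fun a ha b hb => by
    rw [← commutatorElement_eq_one_iff_mul_comm, ← Subgroup.mem_bot, ← h]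
    exact Subgroup.commutator_mem_commutator ha hb
  have hn := derivedSeries_normal G 2
  refine ⟨Additive (derivedSeries G 2), inferInstance, ⟨{
    ρ := { toFun := fun g => AddMonoidHom.toIntLinearMap
            { toFun := fun v => Additive.ofMul ⟨g * v.toMul * g⁻¹, hn.conj_mem _ v.toMul.2 g⟩
              map_zero' := congrArg Additive.ofMul (Subtype.ext (by
                change g * 1 * g⁻¹ = 1
                simp))
              map_add' := fun v w => congrArg Additive.ofMul (Subtype.ext (by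
                change g * (v.toMul * w.toMul : G) * g⁻¹ = g * v.toMul * g⁻¹ * (g * w.toMul * g⁻¹)
                group)) }
           map_one' := LinearMap.ext fun v => congrArg Additive.ofMul (Subtype.ext (by
              change 1 * (v.toMul : G) * 1⁻¹ = v.toMul
              simp))
           map_mul' := fun g g' => LinearMap.ext fun v => congrArg Additive.ofMul (Subtype.ext (by
              change g * g' * (v.toMul : G) * (g * g')⁻¹ = g * (g' * v.toMul * g'⁻¹) * g⁻¹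
              group)) }
    j := fun v => v.toMul
    j_add := fun _ _ => rfl
    j_inj := fun v w e => Additive.toMul.injective (Subtype.ext e)
    j_conj := fun _ _ => rfl
    j_mem := fun g => ⟨fun hg => ⟨Additive.ofMul ⟨g, hg⟩, rfl⟩, fun ⟨v, e⟩ => e ▸ v.toMul.2⟩ }⟩⟩

theorem not_iso {G : Type} [Group G] (H : Subgroup G) (p : ℕ)
    (h1 : ∃ k ∈ derivedSeries G 2, k ∉ H) (h2 : ∀ k ∈ derivedSeries G 2, k ^ p ∈ H)
    (hext : ∀ (P : Type) [Group P] [Finite P] (φ : H →* P), ∃ ψ : G →* P, ∀ h : H, ψ h = φ h)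
    (hden : ∀ (P : Type) [Group P] [Finite P] (ψ : G →* P), ∀ k ∈ derivedSeries G 2,
      ∃ u ∈ derivedSeries G 2, u ∈ H ∧ ψ k = ψ u)
    (r2 : Sep (derivedSeries G 2))
    (rp : ∀ g, (¬ ∃ k ∈ derivedSeries G 2, g = k ^ p) →
      ∃ (P : Type) (_ : Group P) (_ : Finite P) (φ : G →* P),
        (∀ k ∈ derivedSeries G 2, φ (k ^ p) = 1) ∧ φ g ≠ 1)
    (tf : ∀ k ∈ derivedSeries G 2, ∀ k' ∈ derivedSeries G 2, k ^ p = k' ^ p → k = k') :
    IsEmpty (H ≃* G) := by
  refine ⟨fun f => ?_⟩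
  have A : ∀ h : H, (h : G) ∈ derivedSeries G 2 → f h ∈ derivedSeries G 2 := by
    intro h hh
    by_contra hf
    obtain ⟨P, _, _, φ, a, b⟩ := r2 _ hf
    obtain ⟨ψ, hψ⟩ := hext φ.range (φ.rangeRestrict.comp f.toMonoidHom)
    have hb : derivedSeries φ.range 2 = ⊥ := by
      rw [← map_derivedSeries_eq φ.rangeRestrict_surjective, eq_bot_iff]
      rintro _ ⟨k, hk, rfl⟩
      exact Subtype.ext (a k hk)
    have : ψ h ∈ derivedSeries φ.range 2 := map_derivedSeries_le_derivedSeries ψ 2 ⟨_, hh, rfl⟩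
    rw [hb, Subgroup.mem_bot, hψ] at this
    exact b (congrArg Subtype.val this)
  obtain ⟨k, hk, hkH⟩ := h1
  obtain ⟨P, _, _, φ, a, b⟩ := rp (f ⟨k ^ p, h2 k hk⟩) (by
    rintro ⟨k', hk', e⟩
    have m : ((f.symm k' : H) : G) ∈ derivedSeries G 2 :=
      map_derivedSeries_le_derivedSeries (H.subtype.comp f.symm.toMonoidHom) 2 ⟨k', hk', rfl⟩
    have e' : (⟨k ^ p, h2 k hk⟩ : H) = f.symm k' ^ p := by
      rw [← map_pow, ← e, f.symm_apply_apply]
    have := tf k hk _ m (congrArg Subtype.val e')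
    exact hkH (this ▸ (f.symm k').2))
  obtain ⟨ψ, hψ⟩ := hext P (φ.comp f.toMonoidHom)
  obtain ⟨u, hu, huH, e⟩ := hden P ψ k hk
  apply b
  have e1 : φ (f ⟨k ^ p, h2 k hk⟩) = ψ (k ^ p) := (hψ ⟨k ^ p, h2 k hk⟩).symm
  have e2 : ψ u = φ (f ⟨u, huH⟩) := hψ ⟨u, huH⟩
  rw [e1, map_pow, e, e2, ← map_pow]
  exact a _ (A ⟨u, huH⟩ hu)

abbrev F3 := FreeGroup (Fin 3)
abbrev G3 := F3 ⧸ derivedSeries F3 3

theorem der (n : ℕ) : derivedSeries G3 n = (derivedSeries F3 n).map (QuotientGroup.mk' _) :=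
  (map_derivedSeries_eq (QuotientGroup.mk'_surjective _) n).symm

theorem der3 : derivedSeries G3 3 = ⊥ := by
  rw [der, eq_bot_iff]
  rintro _ ⟨k, hk, rfl⟩
  exact (QuotientGroup.eq_one_iff k).2 hk

theorem rf3 : Group.ResiduallyFinite G3 := by
  apply Group.residuallyFinite_of_forall_exists_finite_monoidHom.{0}
  intro g hg
  obtain ⟨w, rfl⟩ := QuotientGroup.mk_surjective g
  obtain ⟨P, _, _, φ, a, b⟩ := sep_derived 3 w fun h => hg ((QuotientGroup.eq_one_iff w).2 h)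
  exact ⟨P, inferInstance, inferInstance, QuotientGroup.lift _ φ a, b⟩

theorem rf2 : Sep (derivedSeries G3 2) := by
  intro g hg
  obtain ⟨w, rfl⟩ := QuotientGroup.mk_surjective g
  rw [der] at hg
  obtain ⟨P, _, _, φ, a, b⟩ := sep_derived 2 w fun h => hg ⟨w, h, rfl⟩
  refine ⟨P, inferInstance, inferInstance, QuotientGroup.lift _ φ fun s hs =>
    a s (derivedSeries_antitone F3 (by norm_num : 2 ≤ 3) hs), ?_, b⟩
  rw [der]
  rintro _ ⟨k, hk, rfl⟩
  exact a k hk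

theorem rfp (p : ℕ) (g : G3) (hg : ¬ ∃ k ∈ derivedSeries G3 2, g = k ^ p) :
    ∃ (P : Type) (_ : Group P) (_ : Finite P) (φ : G3 →* P),
      (∀ k ∈ derivedSeries G3 2, φ (k ^ p) = 1) ∧ φ g ≠ 1 := by
  obtain ⟨w, rfl⟩ := QuotientGroup.mk_surjective g
  obtain ⟨P, _, _, φ, a, b, c⟩ := sep_step _ (sep_derived 2) p w (by
    rintro ⟨s, hs, c, hc, rfl⟩
    refine hg ⟨s, by rw [der]; exact ⟨s, hs, rfl⟩, ?_⟩
    have : (c : G3) = 1 := (QuotientGroup.eq_one_iff c).2 hc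
    rw [QuotientGroup.mk_mul, this, mul_one, QuotientGroup.mk_pow])
  refine ⟨P, inferInstance, inferInstance, QuotientGroup.lift _ φ a, ?_, c⟩
  rw [der]
  rintro _ ⟨k, hk, rfl⟩
  exact b k hk

theorem tf3 (p : ℕ) (hp : p ≠ 0) : ∀ k ∈ derivedSeries G3 2, ∀ k' ∈ derivedSeries G3 2,
    k ^ p = k' ^ p → k = k' := by
  rw [der]
  rintro _ ⟨k, hk, rfl⟩ _ ⟨s, hs, rfl⟩ e
  have hc : (s ^ p)⁻¹ * k ^ p ∈ derivedSeries F3 3 := QuotientGroup.eq.1 e.symm
  have := torsionFree (derivedSeries F3 2) k s _ hk hs hc p hp (by simp)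
  have h1 : ((k * s⁻¹ : F3) : G3) = 1 := (QuotientGroup.eq_one_iff _).2 this
  rw [QuotientGroup.mk_mul, QuotientGroup.mk_inv, mul_inv_eq_one] at h1
  exact h1

theorem main : ∃ H : Subgroup G3, Group.FG H ∧ Group.ResiduallyFinite H ∧
    (∀ (Q : Type) [Group Q] [Finite Q],
      (∃ f : G3 →* Q, Function.Surjective f) ↔ (∃ f : H →* Q, Function.Surjective f)) ∧
    IsEmpty (H ≃* G3) := by
  have : Fact (Nat.Prime 179) := ⟨by norm_num⟩
  obtain ⟨α0, h0, hH, hV⟩ := exists_tiling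
  obtain ⟨V, _, ⟨E⟩⟩ := exists_env G3 der3
  set α : ℤ × ℤ → (ZMod 179)ˣ := fun g => Units.mk0 (α0 g) (h0 g) with hα
  set π0 : F3 →* W 179 := FreeGroup.lift ![W.sh (1, 0), W.sh (0, 1), W.la α] with hπ0
  set π : G3 →* W 179 := QuotientGroup.lift _ π0 (fun s hs => by
    have : π0 s ∈ derivedSeries (W 179) 3 := map_derivedSeries_le_derivedSeries π0 3 ⟨s, hs, rfl⟩
    rwa [W.d3] at this) with hπ
  set x : G3 := QuotientGroup.mk (FreeGroup.of (0 : Fin 3)) with hx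
  set y : G3 := QuotientGroup.mk (FreeGroup.of (1 : Fin 3)) with hy
  set a : G3 := QuotientGroup.mk (FreeGroup.of (2 : Fin 3)) with ha
  have px : π x = W.sh (1, 0) := FreeGroup.lift_apply_of (x := (0 : Fin 3))
  have py : π y = W.sh (0, 1) := FreeGroup.lift_apply_of (x := (1 : Fin 3))
  have pa : π a = W.la α := FreeGroup.lift_apply_of (x := (2 : Fin 3))
  have hgen : Subgroup.closure {x, y, a} = ⊤ := by
    have : ({x, y, a} : Set G3) = QuotientGroup.mk' _ '' Set.range FreeGroup.of := by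
      ext z
      constructor
      · rintro (rfl | rfl | rfl) <;> exact ⟨_, ⟨_, rfl⟩, rfl⟩
      · rintro ⟨_, ⟨i, rfl⟩, rfl⟩
        fin_cases i
        exacts [Or.inl rfl, Or.inr (Or.inl rfl), Or.inr (Or.inr rfl)]
    rw [this, ← MonoidHom.map_closure, FreeGroup.closure_range_of]
    exact Subgroup.map_top_of_surjective _ (QuotientGroup.mk'_surjective _)
  obtain ⟨k, hk, hk1⟩ := model_kappa α hH hV π x y a px py pa aperiodic
  obtain ⟨κ, rfl⟩ := (E.j_mem k).1 hk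
  have da : (π a).n = 1 := by rw [pa]; rfl
  obtain ⟨H, fg, hdec, ⟨v0, hv0⟩, hpow, hext, hden⟩ := E.exists_pair aperiodic x y a hgen
    (W.lin.comp π) (fun g => (π g).n) (fun g h => by ext z; simp)
    (fun v => W.lin_S2 (W.d2 (map_derivedSeries_le_derivedSeries π 2
      ⟨_, (E.j_mem _).2 ⟨v, rfl⟩, rfl⟩)))
    (by simp only [px]; rfl) (by simp only [py]; rfl) κ (hk1.trans da.symm)
    (by simp only [da]; exact one_ne_zero)
    (by simp only [da]; exact model_rels α hH hV π x y a px py pa)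
  have := rf3
  refine ⟨H, (Group.fg_iff_subgroup_fg H).2 fg, inferInstance, fun Q _ _ => ⟨?_, ?_⟩, ?_⟩
  · rintro ⟨f, hf⟩
    refine ⟨f.comp H.subtype, fun q => ?_⟩
    obtain ⟨g, rfl⟩ := hf q
    obtain ⟨v, h, hh, rfl⟩ := hdec g
    obtain ⟨u, hu, e⟩ := hden Q f v
    exact ⟨⟨E.j u * h, H.mul_mem hu hh⟩, by simp [e]⟩
  · rintro ⟨f, hf⟩
    obtain ⟨ψ, hψ⟩ := hext Q f
    refine ⟨ψ, fun q => ?_⟩
    obtain ⟨h, rfl⟩ := hf q
    exact ⟨h, hψ h⟩
  · refine not_iso H 179 ⟨_, (E.j_mem _).2 ⟨v0, rfl⟩, hv0⟩ (fun k hk => ?_) hext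
      (fun P _ _ ψ k hk => ?_) rf2 (rfp 179) (tf3 179 (by norm_num))
    · obtain ⟨v, rfl⟩ := (E.j_mem k).1 hk
      exact hpow v
    · obtain ⟨v, rfl⟩ := (E.j_mem k).1 hk
      obtain ⟨u, hu, e⟩ := hden P ψ v
      exact ⟨_, (E.j_mem _).2 ⟨u, rfl⟩, hu, e⟩

end Pool.Agent.Lib.MP_fcd4e5_al
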