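import Pool.Agent.Lib.MP_fcd4e5_al.Pair

set_option autoImplicit false

namespace Pool.Agent.Lib.MP_fcd4e5_al

open scoped commutatorElement

/-- affine maps `f ↦ n + u * (f shifted by g)` of the ring of functions on the grid -/
@[ext] structure W (p : ℕ) where
  n : ℤ × ℤ → ZMod p
  u : ℤ × ℤ → (ZMod p)ˣ
  g : ℤ × ℤ

namespace W

variable {p : ℕ}

instance : Mul (W p) :=
  ⟨fun a b => ⟨fun h => a.n h + a.u h * b.n (h + a.g), fun h => a.u h * b.u (h + a.g), a.g + b.g⟩⟩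
instance : One (W p) := ⟨⟨0, 1, 0⟩⟩
instance : Inv (W p) :=
  ⟨fun a => ⟨fun h => - (((a.u (h - a.g))⁻¹ : (ZMod p)ˣ) * a.n (h - a.g)),
    fun h => (a.u (h - a.g))⁻¹, - a.g⟩⟩

@[simp] theorem mul_n (a b : W p) (h : ℤ × ℤ) : (a * b).n h = a.n h + a.u h * b.n (h + a.g) := rfl
@[simp] theorem mul_u (a b : W p) (h : ℤ × ℤ) : (a * b).u h = a.u h * b.u (h + a.g) := rfl
@[simp] theorem mul_g (a b : W p) : (a * b).g = a.g + b.g := rfl
@[simp] theorem one_n : (1 : W p).n = 0 := rfl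
@[simp] theorem one_u : (1 : W p).u = 1 := rfl
@[simp] theorem one_g : (1 : W p).g = 0 := rfl
@[simp] theorem inv_n (a : W p) (h : ℤ × ℤ) :
    a⁻¹.n h = - (((a.u (h - a.g))⁻¹ : (ZMod p)ˣ) * a.n (h - a.g)) := rfl
@[simp] theorem inv_u (a : W p) (h : ℤ × ℤ) : a⁻¹.u h = (a.u (h - a.g))⁻¹ := rfl
@[simp] theorem inv_g (a : W p) : a⁻¹.g = - a.g := rfl

instance : Group (W p) := Group.ofLeftAxioms
  (fun a b c => by
    ext h <;> simp [add_assoc, mul_add, mul_assoc])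
  (fun a => by ext h <;> simp)
  (fun a => by ext h <;> simp [← sub_eq_add_neg])

def lin : Representation ℤ (W p) (ℤ × ℤ → ZMod p) where
  toFun w :=
    { toFun := fun f h => w.u h * f (h + w.g)
      map_add' := fun f f' => by ext h; simp [mul_add]
      map_smul' := fun c f => by ext h; simp [mul_left_comm] }
  map_one' := by ext f h; simp
  map_mul' a b := by ext f h; simp [mul_assoc, add_assoc]

@[simp] theorem lin_apply (w : W p) (f : ℤ × ℤ → ZMod p) (h : ℤ × ℤ) :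
    lin w f h = w.u h * f (h + w.g) := rfl

def S1 : Subgroup (W p) where
  carrier := {w | w.g = 0}
  one_mem' := rfl
  mul_mem' := fun {a b} ha hb => by
    have ha' : a.g = 0 := ha
    have hb' : b.g = 0 := hb
    simp [ha', hb']
  inv_mem' := fun {a} ha => by
    have ha' : a.g = 0 := ha
    simp [ha']

def S2 : Subgroup (W p) where
  carrier := {w | w.g = 0 ∧ w.u = 1}
  one_mem' := ⟨rfl, rfl⟩
  mul_mem' := fun {a b} ha hb => ⟨by simp [ha.1, hb.1], by ext h; simp [ha.2, hb.2]⟩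
  inv_mem' := fun {a} ha => ⟨by simp [ha.1], by ext h; simp [ha.2]⟩

theorem comm_S1 (a b : W p) : ⁅a, b⁆ ∈ S1 := by
  change (⁅a, b⁆).g = 0
  simp [commutatorElement_def]

theorem comm_S2 {a b : W p} (ha : a ∈ S1) (hb : b ∈ S1) : ⁅a, b⁆ ∈ S2 := by
  have ha' : a.g = 0 := ha
  have hb' : b.g = 0 := hb
  refine ⟨comm_S1 a b, ?_⟩
  ext h
  simp [commutatorElement_def, ha', hb', mul_comm]

theorem d1 : derivedSeries (W p) 1 ≤ S1 :=
  Subgroup.commutator_le.2 fun a _ b _ => comm_S1 a b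

theorem d2 : derivedSeries (W p) 2 ≤ S2 :=
  Subgroup.commutator_le.2 fun _ ha _ hb => comm_S2 (d1 ha) (d1 hb)

theorem d3 : derivedSeries (W p) 3 = ⊥ := by
  rw [eq_bot_iff]
  refine Subgroup.commutator_le.2 fun a ha b hb => ?_
  obtain ⟨a1, a2⟩ := d2 ha
  obtain ⟨b1, b2⟩ := d2 hb
  rw [Subgroup.mem_bot, commutatorElement_eq_one_iff_mul_comm]
  ext h <;> simp [a1, a2, b1, b2, add_comm]

theorem lin_S2 {w : W p} (hw : w ∈ S2) : lin w = 1 := by
  ext f h; simp [hw.1, hw.2]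

def sh (g : ℤ × ℤ) : W p := ⟨0, 1, g⟩

theorem sh_add (g g' : ℤ × ℤ) : (sh (g + g') : W p) = sh g * sh g' := by
  ext h <;> simp [sh]

def shHom : Multiplicative (ℤ × ℤ) →* W p where
  toFun g := sh g.toAdd
  map_one' := rfl
  map_mul' _ _ := sh_add _ _

theorem sh_pow (i j : ℤ) : (sh (1, 0) : W p) ^ i * sh (0, 1) ^ j = sh (i, j) := by
  change shHom (.ofAdd (1, 0)) ^ i * shHom (.ofAdd (0, 1)) ^ j = shHom (.ofAdd (i, j))
  rw [← map_zpow shHom, ← map_zpow shHom, ← map_mul, ← ofAdd_zsmul, ← ofAdd_zsmul, ← ofAdd_add]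
  simp

def la (α : ℤ × ℤ → (ZMod p)ˣ) : W p := ⟨1, α, 0⟩

theorem la_n (α : ℤ × ℤ → (ZMod p)ˣ) (h : ℤ × ℤ) : (la α).n h = 1 := rfl
theorem la_u (α : ℤ × ℤ → (ZMod p)ˣ) (h : ℤ × ℤ) : (la α).u h = α h := rfl
theorem la_g (α : ℤ × ℤ → (ZMod p)ˣ) : (la α).g = 0 := rfl

theorem conj_la (α : ℤ × ℤ → (ZMod p)ˣ) (g : ℤ × ℤ) :
    sh g * la α * (sh g)⁻¹ = la fun h => α (h + g) := by
  ext h <;> simp [sh, la]

theorem lin_la (α : ℤ × ℤ → (ZMod p)ˣ) :
    lin (la α) = Algebra.lmul ℤ (ℤ × ℤ → ZMod p) fun h => (α h : ZMod p) := by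
  ext f h; simp [la]

end W

theorem ind_zero {p : ℕ} [Fact p.Prime] {s b : ZMod p} (h : b ≠ s) : ind s b = 0 := by
  rw [ind, ZMod.natCast_zmod_val, ZMod.pow_card_sub_one_eq_one (sub_ne_zero.2 h), sub_self]

theorem ind_rel {p : ℕ} [Fact p.Prime] {T : ZMod p → ZMod p → Prop} (b c : ℤ × ℤ → ZMod p)
    (h : ∀ g, T (b g) (c g)) (s t : ZMod p) (hst : ¬ T s t) : ind s b * ind t c = 0 := by
  ext g
  have e : ∀ (s : ZMod p) (b : ℤ × ℤ → ZMod p), ind s b g = ind s (b g) := fun s b =>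
    map_ind (Pi.evalRingHom (fun _ : ℤ × ℤ => ZMod p) g) s b
  rw [Pi.mul_apply, e, e, Pi.zero_apply]
  by_cases h1 : b g = s
  · by_cases h2 : c g = t
    · exact absurd (h1 ▸ h2 ▸ h g) hst
    · rw [ind_zero h2, mul_zero]
  · rw [ind_zero h1, zero_mul]

section model

variable {p : ℕ} [hp : Fact p.Prime] {Hor Ver : ZMod p → ZMod p → Prop}
  (α : ℤ × ℤ → (ZMod p)ˣ) (hH : ∀ i j, Hor (α (i, j)) (α (i + 1, j)))
  (hV : ∀ i j, Ver (α (i, j)) (α (i, j + 1))) {G : Type} [Group G] (π : G →* W p) (x y a : G)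
  (hx : π x = W.sh (1, 0)) (hy : π y = W.sh (0, 1)) (ha : π a = W.la α)

include hH hV hx hy ha

theorem model_rels : Rels Hor Ver (W.lin.comp π) x y a 1 := by
  have haS : π a ∈ W.S1 := by rw [ha]; rfl
  refine ⟨?_, ?_, ?_, ?_, ?_, fun s t h => ?_, fun s t h => ?_⟩
  · ext h; simp [hx, W.sh]
  · ext h; simp [hy, W.sh]
  · ext h; simp
  · ext h
    rw [MonoidHom.comp_apply, map_pow, map_pow, ha, W.lin_la, ← map_pow]
    simp [ZMod.pow_card_sub_one_eq_one (α h).ne_zero]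
  · intro c hc k _
    have : π c ∈ W.S2 := by
      rcases hc with rfl | rfl | rfl
      · rw [map_commutatorElement, hx, hy, commutatorElement_eq_one_iff_mul_comm.2]
        · exact one_mem _
        · rw [← W.sh_add, ← W.sh_add, add_comm]
      · rw [map_commutatorElement, map_commutatorElement]
        exact W.comm_S2 haS (W.comm_S1 _ _)
      · rw [map_commutatorElement, map_commutatorElement]
        exact W.comm_S2 haS (W.comm_S1 _ _)
    rw [map_mul, MonoidHom.comp_apply, W.lin_S2 this, one_mul]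
  · simp only [MonoidHom.comp_apply, map_mul π, map_inv π, hx, ha, W.conj_la, W.lin_la]
    have e := map_ind (p := p) (Algebra.lmul ℤ (ℤ × ℤ → ZMod p)).toRingHom
    simp only [AlgHom.toRingHom_eq_coe, RingHom.coe_coe] at e
    rw [← e, ← e, ← map_mul, ind_rel (T := Hor) _ _ (fun g => by simpa [Prod.add_def] using hH g.1 g.2) s t h]
    simp
  · simp only [MonoidHom.comp_apply, map_mul π, map_inv π, hy, ha, W.conj_la, W.lin_la]
    have e := map_ind (p := p) (Algebra.lmul ℤ (ℤ × ℤ → ZMod p)).toRingHom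
    simp only [AlgHom.toRingHom_eq_coe, RingHom.coe_coe] at e
    rw [← e, ← e, ← map_mul, ind_rel (T := Ver) _ _ (fun g => by simpa [Prod.add_def] using hV g.1 g.2) s t h]
    simp

theorem model_kappa (hap : Aperiodic Hor Ver) : ∃ k ∈ derivedSeries G 2, (π k).n = 1 := by
  have hK : ∀ k ∈ derivedSeries G 2, π k ∈ W.S2 := fun k hk =>
    W.d2 (map_derivedSeries_le_derivedSeries π 2 ⟨k, hk, rfl⟩)
  let J : AddSubgroup (ℤ × ℤ → ZMod p) :=
    { carrier := {f | ∃ k ∈ derivedSeries G 2, (π k).n = f}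
      zero_mem' := ⟨1, one_mem _, by simp⟩
      add_mem' := by
        rintro _ _ ⟨k, hk, rfl⟩ ⟨k', hk', rfl⟩
        refine ⟨k * k', mul_mem hk hk', ?_⟩
        ext h; simp [(hK k hk).1, (hK k hk).2]
      neg_mem' := by
        rintro _ ⟨k, hk, rfl⟩
        refine ⟨k⁻¹, inv_mem hk, ?_⟩
        ext h; simp [(hK k hk).1, (hK k hk).2] }
  obtain ⟨b, hb⟩ : ∃ b : ℤ × ℤ → G,
    b = fun g => x ^ g.1 * y ^ g.2 * a * (x ^ g.1 * y ^ g.2)⁻¹ := ⟨_, rfl⟩
  have hπb : ∀ g, π (b g) = W.la fun h => α (h + g) := by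
    intro g
    simp only [hb, map_mul, map_inv, map_zpow, hx, hy, ha, W.sh_pow, W.conj_la]
  obtain ⟨β, hβ⟩ : ∃ β : ℤ × ℤ → ℤ × ℤ → ZMod p, β = fun g h => (α (h + g) : ZMod p) := ⟨_, rfl⟩
  have hJ : ∀ T ∈ J, ∀ g, T * β g ∈ J := by
    rintro _ ⟨k, hk, rfl⟩ g
    refine ⟨b g * k * (b g)⁻¹, (derivedSeries_normal G 2).conj_mem k hk _, ?_⟩
    ext h
    have n1 := (α (h + g)).ne_zero
    simp only [map_mul, map_inv, hπb, W.mul_n, W.mul_u, W.mul_g, W.inv_n, W.la_n, W.la_u, W.la_g,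
      hβ, (hK k hk).1, (hK k hk).2, add_zero, sub_zero, Pi.mul_apply, Pi.one_apply, mul_one,
      Units.val_inv_eq_inv_val]
    field_simp
    ring
  have hsq : ∀ g g', (β g - β g') ^ 2 ∈ J := by
    intro g g'
    have m1 : b g * (b g')⁻¹ ∈ commutator G := by
      have : b g * (b g')⁻¹ = ⁅x ^ g.1 * y ^ g.2, a⁆ * ⁅x ^ g'.1 * y ^ g'.2, a⁆⁻¹ := by
        simp only [hb, commutatorElement_def]; group
      rw [this]
      exact mul_mem (comm_mem _ _) (inv_mem (comm_mem _ _))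
    have m2 : ⁅b g * (b g')⁻¹, ⁅b g, b g'⁆⁆ ∈ derivedSeries G 2 :=
      Subgroup.commutator_mem_commutator m1 (comm_mem _ _)
    have := hJ _ ⟨_, m2, rfl⟩ g'
    have e : (π ⁅b g * (b g')⁻¹, ⁅b g, b g'⁆⁆).n * β g' = (β g - β g') ^ 2 := by
      ext h
      have n1 := (α (h + g)).ne_zero
      have n2 := (α (h + g')).ne_zero
      simp only [commutatorElement_def, map_mul, map_inv, hπb, W.mul_n, W.mul_u, W.mul_g, W.inv_n,
        W.inv_u, W.inv_g, W.la_n, W.la_u, W.la_g, hβ, add_zero, sub_zero, neg_zero, Pi.mul_apply,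
        Pi.pow_apply, Pi.sub_apply, mul_one, Units.val_inv_eq_inv_val, Units.val_mul]
      field_simp
      ring
    rwa [e] at this
  exact key' hap β (fun _ _ => mul_comm _ _) (by ext h; simp)
    (fun g => by ext h; simp [hβ, ZMod.pow_card_sub_one_eq_one (α (h + g)).ne_zero])
    (fun i j s t h => ind_rel (T := Hor) _ _ (fun g => by
      simpa [hβ, Prod.add_def, add_assoc] using hH (g.1 + i) (g.2 + j)) s t h)
    (fun i j s t h => ind_rel (T := Ver) _ _ (fun g => by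
      simpa [hβ, Prod.add_def, add_assoc] using hV (g.1 + i) (g.2 + j)) s t h)
    J hJ 1 one_pos (fun _ _ => hsq _ _) (fun _ _ => hsq _ _)

end model

end Pool.Agent.Lib.MP_fcd4e5_al
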