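import Pool.Agent.Lib.MP_fcd4e5_al.Core

set_option autoImplicit false

namespace Pool.Agent.Lib.MP_fcd4e5_al

namespace Env

variable {G V : Type} [Group G] [AddCommGroup V] (E : Env G V)

theorem dec (x y a : G) (hgen : Subgroup.closure {x, y, a} = ⊤) (H : Subgroup G) (κ : V)
    (hx : x ∈ H) (hy : y ∈ H) (ha : (E.j κ)⁻¹ * a ∈ H) (U : Submodule ℤ V) (hU : E.Inv U)
    (hκ : κ ∈ U) (g : G) : ∃ v ∈ U, ∃ h ∈ H, g = E.j v * h := by
  have hg : g ∈ Subgroup.closure {x, y, a} := hgen ▸ Subgroup.mem_top g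
  induction hg using Subgroup.closure_induction with
  | mem z hz =>
    rcases hz with rfl | rfl | rfl
    · exact ⟨0, U.zero_mem, _, hx, by simp [E.j_zero]⟩
    · exact ⟨0, U.zero_mem, _, hy, by simp [E.j_zero]⟩
    · exact ⟨κ, hκ, _, ha, by simp⟩
  | one => exact ⟨0, U.zero_mem, 1, H.one_mem, by simp [E.j_zero]⟩
  | mul _ _ _ _ a b =>
    obtain ⟨v, hv, h, hh, rfl⟩ := a
    obtain ⟨v', hv', h', hh', rfl⟩ := b
    refine ⟨v + E.ρ h v', U.add_mem hv (hU h hv'), h * h', H.mul_mem hh hh', ?_⟩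
    rw [E.j_add, E.j_conj]; group
  | inv _ _ a =>
    obtain ⟨v, hv, h, hh, rfl⟩ := a
    refine ⟨E.ρ h⁻¹ (-v), hU _ (U.neg_mem hv), h⁻¹, H.inv_mem hh, ?_⟩
    rw [E.j_conj, E.j_neg]; group

/-- preimage of a subgroup -/
def pre (H : Subgroup G) : Submodule ℤ V :=
  AddSubgroup.toIntSubmodule
    { carrier := {v | E.j v ∈ H}
      zero_mem' := by simp [E.j_zero]
      add_mem' := fun {v w} hv hw => by
        change E.j (v + w) ∈ H
        rw [E.j_add]; exact H.mul_mem hv hw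
      neg_mem' := fun {v} hv => by
        change E.j (-v) ∈ H
        rw [E.j_neg]; exact H.inv_mem hv }

theorem mem_pre (H : Subgroup G) (v : V) : v ∈ E.pre H ↔ E.j v ∈ H := Iff.rfl

/-- image of an invariant submodule -/
def img (U : Submodule ℤ V) : Subgroup G where
  carrier := E.j '' U
  one_mem' := ⟨0, U.zero_mem, E.j_zero⟩
  mul_mem' := by
    rintro _ _ ⟨v, hv, rfl⟩ ⟨w, hw, rfl⟩
    exact ⟨v + w, U.add_mem hv hw, E.j_add v w⟩
  inv_mem' := by
    rintro _ ⟨v, hv, rfl⟩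
    exact ⟨-v, U.neg_mem hv, E.j_neg v⟩

theorem inv_of_H (H : Subgroup G) (hd : ∀ g, ∃ v, ∃ h ∈ H, g = E.j v * h) (U : Submodule ℤ V)
    (hU : ∀ h ∈ H, ∀ u ∈ U, E.ρ h u ∈ U) : E.Inv U := by
  intro g u hu
  obtain ⟨v, h, hh, rfl⟩ := hd g
  change E.ρ (E.j v * h) u ∈ U
  rw [map_mul, E.rho_j, one_mul]
  exact hU h hh u hu

theorem exists_pair {p : ℕ} [hp : Fact p.Prime] {Hor Ver : ZMod p → ZMod p → Prop}
    (hap : Aperiodic Hor Ver) (x y a : G) (hgen : Subgroup.closure {x, y, a} = ⊤)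
    {Φ : Type} [AddCommGroup Φ] (σ : Representation ℤ G Φ) (d : G → Φ)
    (hd : ∀ g h, d (g * h) = d g + σ g (d h)) (hσ : ∀ v, σ (E.j v) = 1) (dx : d x = 0)
    (dy : d y = 0) (κ : V) (dκ : d (E.j κ) = d a) (da : d a ≠ 0)
    (R : Rels Hor Ver σ x y a (d a)) :
    ∃ H : Subgroup G, H.FG ∧ (∀ g, ∃ v, ∃ h ∈ H, g = E.j v * h) ∧ (∃ v, E.j v ∉ H) ∧
      (∀ v, E.j v ^ p ∈ H) ∧
      (∀ (P : Type) [Group P] [Finite P] (φ : H →* P), ∃ ψ : G →* P, ∀ h : H, ψ h = φ h) ∧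
      (∀ (P : Type) [Group P] [Finite P] (ψ : G →* P) (v : V),
        ∃ u, E.j u ∈ H ∧ ψ (E.j v) = ψ (E.j u)) := by
  obtain ⟨𝒯, hfin, h𝒯⟩ := rels_finite Hor Ver x y a
  set H : Subgroup G := Subgroup.closure ({x, y, (E.j κ)⁻¹ * a} ∪
    (fun τ => E.j (E.ρ.asAlgebraHom τ κ)) '' 𝒯) with hH
  have hx : x ∈ H := Subgroup.subset_closure (by simp)
  have hy : y ∈ H := Subgroup.subset_closure (by simp)
  have ha : (E.j κ)⁻¹ * a ∈ H := Subgroup.subset_closure (by simp)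
  have d1 : d 1 = 0 := by simpa using hd 1 1
  have dinv : ∀ g, d g + σ g (d g⁻¹) = 0 := fun g => by rw [← hd, mul_inv_cancel, d1]
  let δ : V →ₗ[ℤ] Φ := AddMonoidHom.toIntLinearMap
    { toFun := fun v => d (E.j v)
      map_zero' := by rw [E.j_zero, d1]
      map_add' := fun v w => by rw [E.j_add, hd, hσ]; rfl }
  have hδ : ∀ g v, δ (E.ρ g v) = σ g (δ v) := by
    intro g v
    change d (E.j (E.ρ g v)) = σ g (d (E.j v))
    rw [E.j_conj, hd, hd, map_mul, hσ, mul_one, add_right_comm, dinv, zero_add]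
  have hH0 : ∀ h ∈ H, d h = 0 := by
    intro h hh
    induction hh using Subgroup.closure_induction with
    | mem z hz =>
      rcases hz with (rfl | rfl | rfl) | ⟨τ, hτ, rfl⟩
      · exact dx
      · exact dy
      · rw [← E.j_neg, hd, hσ]
        change δ (-κ) + d a = 0
        rw [map_neg]
        change - d (E.j κ) + d a = 0
        rw [dκ, neg_add_cancel]
      · change δ (E.ρ.asAlgebraHom τ κ) = 0
        rw [intertwine E.ρ σ δ hδ]
        change σ.asAlgebraHom τ (d (E.j κ)) = 0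
        rw [dκ]
        exact (h𝒯 Φ σ _).1 R τ hτ
    | one => exact d1
    | mul _ _ _ _ a b => rw [hd, a, b, map_zero, add_zero]
    | inv z _ a =>
      have := dinv z⁻¹
      rwa [inv_inv, a, map_zero, add_zero] at this
  have hdec : ∀ g, ∃ v, ∃ h ∈ H, g = E.j v * h := fun g => by
    obtain ⟨v, -, h⟩ := E.dec x y a hgen H κ hx hy ha ⊤ (fun _ => le_top) trivial g
    exact ⟨v, h⟩
  set U0 := E.pre H with hU0
  have h0 : E.Inv U0 := E.inv_of_H H hdec U0 fun h hh u hu => by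
    rw [mem_pre, E.j_conj]
    exact H.mul_mem (H.mul_mem hh hu) (H.inv_mem hh)
  have hmk : ∀ g v, U0.mkQ (E.ρ g v) = E.ρ.quotient U0 h0 g (U0.mkQ v) := fun g v => rfl
  have hspan : Submodule.span ℤ (Set.range fun g => E.ρ.quotient U0 h0 g (U0.mkQ κ)) = ⊤ := by
    rw [eq_top_iff]
    rintro w -
    obtain ⟨v, rfl⟩ := U0.mkQ_surjective w
    set U3 := Submodule.span ℤ (Set.range fun g => E.ρ g κ) with hU3
    have h3 : E.Inv U3 := fun g => Submodule.span_le.2 (by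
      rintro _ ⟨g', rfl⟩
      exact Submodule.subset_span ⟨g * g', by simp⟩)
    obtain ⟨v3, hv3, h, hh, e⟩ := E.dec x y a hgen H κ hx hy ha U3 h3
      (Submodule.subset_span ⟨1, by simp⟩) (E.j v)
    have : U0.mkQ v = U0.mkQ v3 := by
      rw [Submodule.mkQ_apply, Submodule.mkQ_apply, eq_comm, Submodule.Quotient.eq', mem_pre,
        E.j_add, E.j_neg, e]
      simpa using hh
    rw [this]
    have hle : U3 ≤ (Submodule.span ℤ
        (Set.range fun g => E.ρ.quotient U0 h0 g (U0.mkQ κ))).comap U0.mkQ :=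
      Submodule.span_le.2 (by
        rintro _ ⟨g', rfl⟩
        exact Submodule.subset_span ⟨g', rfl⟩)
    exact hle hv3
  have R0 : Rels Hor Ver (E.ρ.quotient U0 h0) x y a (U0.mkQ κ) := by
    refine (h𝒯 _ _ _).2 fun τ hτ => ?_
    rw [← intertwine E.ρ _ U0.mkQ hmk, Submodule.mkQ_apply, Submodule.Quotient.mk_eq_zero, mem_pre]
    exact Subgroup.subset_closure (Or.inr ⟨τ, hτ, rfl⟩)
  have nu := E.exists_nu hap x y a hgen U0 h0 _ hspan R0
  refine ⟨H, ?_, hdec, ⟨κ, fun h => da (dκ ▸ hH0 _ h)⟩, fun v => ?_, fun P _ _ φ => ?_,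
    fun P _ _ ψ v => ?_⟩
  · exact (Subgroup.fg_iff _).2 ⟨_, rfl, (Set.toFinite _).union (hfin.image _)⟩
  · have hK : ∀ k ∈ derivedSeries G 2, E.ρ.quotient U0 h0 k = 1 := by
      intro k hk
      ext v
      simp [E.rho_K k hk]
    have hp0 := (rels_main hap _ x y a _ hgen hspan hK R0).1
    rw [← E.j_nsmul, ← mem_pre, ← Submodule.Quotient.mk_eq_zero, ← Submodule.mkQ_apply, map_nsmul]
    have := congrArg (fun T : Module.End ℤ (V ⧸ U0) => T (U0.mkQ v)) hp0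
    simpa using this
  · set U1 := E.pre (φ.ker.map H.subtype) with hU1
    have m1 : ∀ u, u ∈ U1 ↔ ∃ h : E.j u ∈ H, φ ⟨_, h⟩ = 1 := by
      intro u
      rw [mem_pre]
      constructor
      · rintro ⟨⟨h, hh⟩, hk, e⟩
        have e' : h = E.j u := e
        subst e'
        exact ⟨hh, hk⟩
      · rintro ⟨h, hk⟩
        exact ⟨⟨_, h⟩, hk, rfl⟩
    have h1 : E.Inv U1 := E.inv_of_H H hdec U1 fun h hh u hu => by
      obtain ⟨hu, hk⟩ := (m1 u).1 hu
      refine (m1 _).2 ⟨h0 h hu, ?_⟩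
      have : (⟨E.j (E.ρ h u), h0 h hu⟩ : H) = ⟨h, hh⟩ * ⟨_, hu⟩ * (⟨h, hh⟩ : H)⁻¹ :=
        Subtype.ext (E.j_conj h u)
      rw [this, map_mul, map_mul, hk]; simp
    have hn : ∀ z ∈ H, ∀ u ∈ U0, E.ρ (z ^ Nat.card P) u - u ∈ U1 := by
      intro z hz u hu
      refine (m1 _).2 ⟨U0.sub_mem (h0 _ hu) hu, ?_⟩
      have : (⟨E.j (E.ρ (z ^ Nat.card P) u - u), U0.sub_mem (h0 _ hu) hu⟩ : H) =
          ⟨z, hz⟩ ^ Nat.card P * ⟨_, hu⟩ * ((⟨z, hz⟩ : H) ^ Nat.card P)⁻¹ * (⟨_, hu⟩ : H)⁻¹ :=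
        Subtype.ext ((E.j_sub _ _).trans (congrArg (· * (E.j u)⁻¹) (E.j_conj _ u)))
      rw [this, map_mul, map_mul, map_mul, map_inv, map_inv, map_pow, pow_card_eq_one']
      simp
    obtain ⟨ν, hν, n0, n1⟩ := nu U0 U1 h0 h1 _ Nat.card_pos (hn x hx) (hn y hy)
    set U2 := U1.comap ν with hU2
    have h2 : E.Inv U2 := by
      intro g v hv
      change ν (E.ρ g v) ∈ U1
      have hc := E.C_conj g⁻¹ hν
      set ν' := conjHom E.ρ g⁻¹ ν with hν'
      have e : ν (E.ρ g v) = E.ρ g (ν' v) := by simp [hν', conjHom]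
      rw [e]
      apply h1 g
      have a0 : ν' v ∈ U0 := by
        have : ν' v = E.ρ g⁻¹ (ν (E.ρ g v)) := by simp [hν', conjHom]
        rw [this]; exact h0 _ (n0 _)
      have a1 : ν (ν' v) ∈ U1 := by
        rw [← Module.End.mul_apply, E.C_comm hν hc]
        exact E.C_pres h1 hc _ hv
      simpa using U1.sub_mem a1 (n1 _ a0)
    have hN : (E.img U2).Normal := ⟨by
      rintro _ ⟨v, hv, rfl⟩ g
      exact ⟨E.ρ g v, h2 g hv, E.j_conj g v⟩⟩
    set f : H →* G ⧸ E.img U2 := (QuotientGroup.mk' _).comp H.subtype with hf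
    have hs : Function.Surjective f := by
      intro q
      obtain ⟨g, rfl⟩ := QuotientGroup.mk'_surjective _ q
      obtain ⟨v, h, hh, rfl⟩ := hdec g
      refine ⟨⟨E.j (ν v) * h, H.mul_mem (n0 v) hh⟩, ?_⟩
      have : v = (v - ν v) + ν v := by simp
      have h1' : QuotientGroup.mk' (E.img U2) (E.j (v - ν v)) = 1 :=
        (QuotientGroup.eq_one_iff _).2 ⟨_, by
          change ν (v - ν v) ∈ U1
          rw [map_sub]
          simpa using U1.neg_mem (n1 _ (n0 v)), rfl⟩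
      conv_rhs => rw [this, E.j_add, mul_assoc, map_mul, h1', one_mul]
      rfl
    have hk : f.ker ≤ φ.ker := by
      rintro ⟨h, hh⟩ hk
      obtain ⟨v, hv, e⟩ := (QuotientGroup.eq_one_iff _).1 hk
      have e' : E.j v = h := e
      subst e'
      have : v ∈ U1 := by simpa using U1.sub_mem hv (n1 v hh)
      exact ((m1 v).1 this).2
    exact ⟨(f.liftOfSurjective hs ⟨φ, hk⟩).comp (QuotientGroup.mk' _), fun h =>
      f.liftOfRightInverse_comp_apply _ (Function.rightInverse_surjInv hs) ⟨φ, hk⟩ h⟩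
  · have h1 : E.Inv (E.pre ψ.ker) := fun g u hu => by
      change E.j (E.ρ g u) ∈ ψ.ker
      rw [E.j_conj]
      exact Subgroup.Normal.conj_mem inferInstance _ hu g
    have hn : ∀ z : G, ∀ u ∈ (⊤ : Submodule ℤ V), E.ρ (z ^ Nat.card P) u - u ∈ E.pre ψ.ker := by
      intro z u _
      rw [mem_pre, E.j_sub, E.j_conj, MonoidHom.mem_ker]
      simp
    obtain ⟨ν, -, n0, n1⟩ := nu ⊤ _ (fun _ => le_top) h1 _ Nat.card_pos (hn x) (hn y)
    refine ⟨ν v, n0 v, ?_⟩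
    have := n1 v trivial
    rw [mem_pre, E.j_sub, MonoidHom.mem_ker, map_mul, map_inv, mul_inv_eq_one] at this
    exact this.symm

end Env

end Pool.Agent.Lib.MP_fcd4e5_al
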