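import Pool.Agent.Lib.MP_fcd4e5_al.Cyc

set_option autoImplicit false

namespace Pool.Agent.Lib.MP_fcd4e5_al

open scoped commutatorElement

def conjHom {G A : Type} [Group G] [Ring A] (σ : G →* A) (g : G) : A →+* A where
  toFun T := σ g * T * σ g⁻¹
  map_one' := by rw [mul_one, ← map_mul, mul_inv_cancel, map_one]
  map_mul' S T := by
    have : σ g⁻¹ * σ g = 1 := by rw [← map_mul, inv_mul_cancel, map_one]
    calc σ g * (S * T) * σ g⁻¹ = σ g * S * (σ g⁻¹ * σ g) * T * σ g⁻¹ := by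
          rw [this]; simp only [mul_assoc, one_mul]
      _ = _ := by simp only [mul_assoc]
  map_zero' := by simp
  map_add' S T := by rw [mul_add, add_mul]

theorem conjHom_apply {G A : Type} [Group G] [Ring A] (σ : G →* A) (g z : G) :
    conjHom σ g (σ z) = σ (g * z * g⁻¹) := by simp [conjHom]

theorem conj_congr {G A : Type} [Group G] [Ring A] (σ : G →* A) {g g' : G} (h : σ g = σ g')
    (z : G) : σ (g * z * g⁻¹) = σ (g' * z * g'⁻¹) := by
  have : σ g⁻¹ = σ g'⁻¹ := by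
    calc σ g⁻¹ = σ g⁻¹ * σ g' * σ g'⁻¹ := by
          rw [mul_assoc, ← map_mul, mul_inv_cancel, map_one, mul_one]
      _ = σ g'⁻¹ := by rw [← h, ← map_mul, inv_mul_cancel, map_one, one_mul]
  rw [map_mul, map_mul, map_mul, map_mul, h, this]

/-- The finitely many relations satisfied by the cyclic vector `e`. -/
structure Rels {p : ℕ} (Hor Ver : ZMod p → ZMod p → Prop) {G N : Type} [Group G]
    [AddCommGroup N] (σ : Representation ℤ G N) (x y a : G) (e : N) : Prop where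
  hx : σ x e = e
  hy : σ y e = e
  h0 : (p : Module.End ℤ N) e = 0
  ha : σ (a ^ (p - 1)) e = e
  hc : ∀ c, c = ⁅x, y⁆ ∨ c = ⁅a, ⁅a, x⁆⁆ ∨ c = ⁅a, ⁅a, y⁆⁆ → ∀ k < p - 1,
    σ (c * a ^ k) e = σ (a ^ k) e
  hH : ∀ s t, ¬ Hor s t → (ind s (σ a) * ind t (σ (x * a * x⁻¹))) e = 0
  hV : ∀ s t, ¬ Ver s t → (ind s (σ a) * ind t (σ (y * a * y⁻¹))) e = 0

theorem rels_main {p : ℕ} [hp : Fact p.Prime] {Hor Ver : ZMod p → ZMod p → Prop}
    (hap : Aperiodic Hor Ver) {G N : Type} [Group G] [AddCommGroup N]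
    (σ : Representation ℤ G N) (x y a : G) (e : N) (hgen : Subgroup.closure {x, y, a} = ⊤)
    (hspan : Submodule.span ℤ (Set.range fun g => σ g e) = ⊤)
    (hK : ∀ k ∈ derivedSeries G 2, σ k = 1) (R : Rels Hor Ver σ x y a e) :
    (p : Module.End ℤ N) = 0 ∧ (∀ z ∈ Subgroup.normalClosure {a}, σ z ^ (p - 1) = 1) ∧
    ∀ (J : AddSubgroup (Module.End ℤ N)), (∀ T ∈ J, ∀ U, T * U ∈ J) → ∀ n : ℕ, 0 < n →
      (∀ z ∈ Subgroup.normalClosure {a}, σ ⁅x ^ n, z⁆ - 1 ∈ J) →
      (∀ z ∈ Subgroup.normalClosure {a}, σ ⁅y ^ n, z⁆ - 1 ∈ J) → 1 ∈ J := by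
  have hm : 0 < p - 1 := by have := hp.out.two_le; omega
  have tr := acts_trivially σ x y a e hgen hspan hK R.hx R.hy _ hm R.ha
  have t1 := tr _ (comm_mem _ _) (R.hc _ (Or.inl rfl))
  have t2 := tr _ (comm_mem _ _) (R.hc _ (Or.inr (Or.inl rfl)))
  have t3 := tr _ (comm_mem _ _) (R.hc _ (Or.inr (Or.inr rfl)))
  have cm := closure_comm σ x y a hgen hK t1 t2 t3
  have z0 := zero_of_comm σ x y a e hgen hspan R.hx R.hy
  have haA : a ∈ Subgroup.normalClosure {a} := Subgroup.subset_normalClosure rfl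
  have hcA : ∀ g, g * a * g⁻¹ ∈ Subgroup.normalClosure {a} := fun g =>
    Subgroup.Normal.conj_mem inferInstance a haA g
  have hp0 : (p : Module.End ℤ N) = 0 := z0 _ (fun z _ => Nat.cast_commute p _) R.h0
  have ha1 : σ a ^ (p - 1) = 1 := by
    rw [← sub_eq_zero]
    refine z0 _ (fun z hz => ?_) (by simpa [sub_eq_zero] using R.ha)
    exact (Commute.pow_left (cm a haA z hz) _).sub_left (Commute.one_left _)
  have hpow : ∀ z ∈ Subgroup.normalClosure {a}, σ z ^ (p - 1) = 1 := by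
    intro z hz
    induction hz using Subgroup.closure_induction with
    | mem z hz =>
      obtain ⟨b, rfl, hb⟩ := Group.mem_conjugatesOfSet_iff.1 hz
      obtain ⟨g, rfl⟩ := isConj_iff.1 hb
      rw [← conjHom_apply, ← map_pow, ha1, map_one]
    | one => simp
    | mul u v hu hv a b => rw [map_mul, Commute.mul_pow (cm u hu v hv), a, b, one_mul]
    | inv u hu a =>
      have : σ u⁻¹ ^ (p - 1) * σ u ^ (p - 1) = 1 := by
        rw [← map_pow, ← map_pow, ← map_mul, inv_pow, inv_mul_cancel, map_one]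
      rwa [a, mul_one] at this
  refine ⟨hp0, hpow, fun J hJ n hn h1 h2 => ?_⟩
  have ci : ∀ (s : ZMod p) (u : G), u ∈ Subgroup.normalClosure {a} →
      ∀ z ∈ Subgroup.normalClosure {a}, Commute (ind s (σ u)) (σ z) := by
    intro s u hu z hz
    exact (Commute.one_left _).sub_left
      ((Commute.sub_left (cm u hu z hz) (Nat.cast_commute _ _)).pow_left _)
  have rel : ∀ (s t : ZMod p) (w : G), (ind s (σ a) * ind t (σ (w * a * w⁻¹))) e = 0 → ∀ g,
      ind s (σ (g * a * g⁻¹)) * ind t (σ (g * w * a * (g * w)⁻¹)) = 0 := by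
    intro s t w h g
    have := z0 _ (fun z hz => (ci s a haA z hz).mul_left (ci t _ (hcA w) z hz)) h
    have := congrArg (conjHom σ g) this
    rw [map_mul, map_ind, map_ind, conjHom_apply, conjHom_apply, map_zero] at this
    rw [← this]
    congr 3
    group
  have cxy : Commute (σ.toHomUnits x) (σ.toHomUnits y) := by
    apply Units.ext
    have e : x * y = ⁅x, y⁆ * (y * x) := by rw [commutatorElement_def]; group
    change σ x * σ y = σ y * σ x
    rw [← map_mul, ← map_mul, e, map_mul, t1, one_mul]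
  have cz : ∀ i j : ℤ, σ (x ^ i * y ^ j) = σ (y ^ j * x ^ i) := by
    intro i j
    have := congrArg Units.val (cxy.zpow_zpow i j).eq
    rw [← map_zpow, ← map_zpow, ← map_mul, ← map_mul] at this
    exact this
  have dif : ∀ u z : G, σ (u * z * u⁻¹) - σ z = (σ ⁅u, z⁆ - 1) * σ z := by
    intro u z
    rw [sub_mul, one_mul, ← map_mul, commutatorElement_def, inv_mul_cancel_right]
  refine key' hap (fun g => σ (x ^ g.1 * y ^ g.2 * a * (x ^ g.1 * y ^ g.2)⁻¹))
    (fun g h => cm _ (hcA _) _ (hcA _)) hp0 (fun g => hpow _ (hcA _)) ?_ ?_ J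
    (fun T hT g => hJ T hT _) n hn ?_ ?_
  · intro i j s t h
    have := rel s t x (R.hH s t h) (x ^ i * y ^ j)
    have e : σ (x ^ i * y ^ j * x) = σ (x ^ (i + 1) * y ^ j) := by
      have := cz 1 j
      rw [zpow_one] at this
      rw [mul_assoc, map_mul, ← this, ← map_mul, zpow_add_one, mul_assoc]
    rwa [conj_congr σ e] at this
  · intro i j s t h
    have := rel s t y (R.hV s t h) (x ^ i * y ^ j)
    have e : x ^ i * y ^ j * y = x ^ i * y ^ (j + 1) := by rw [zpow_add_one, mul_assoc]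
    rwa [e] at this
  · intro i j
    have e : x ^ (i + n) * y ^ j * a * (x ^ (i + n) * y ^ j)⁻¹ =
        x ^ n * (x ^ i * y ^ j * a * (x ^ i * y ^ j)⁻¹) * (x ^ n)⁻¹ := by group
    simp only
    rw [pow_two]
    apply hJ
    rw [e, dif]
    exact hJ _ (h1 _ (hcA _)) _
  · intro i j
    have e1 : σ (x ^ i * y ^ (j + n)) = σ (y ^ n * (x ^ i * y ^ j)) := by
      rw [cz, map_mul σ (y ^ n), cz, ← map_mul]
      congr 1
      group
    have e : y ^ n * (x ^ i * y ^ j) * a * (y ^ n * (x ^ i * y ^ j))⁻¹ =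
        y ^ n * (x ^ i * y ^ j * a * (x ^ i * y ^ j)⁻¹) * (y ^ n)⁻¹ := by group
    simp only
    rw [pow_two]
    apply hJ
    rw [conj_congr σ e1, e, dif]
    exact hJ _ (h2 _ (hcA _)) _

end Pool.Agent.Lib.MP_fcd4e5_al
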