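import Mathlib

set_option autoImplicit false

namespace Pool.Agent.Lib.MP_fcd4e5_al

/-- A pair of local rules on `ZMod p` with no doubly periodic solution. -/
def Aperiodic {p : ℕ} (Hor Ver : ZMod p → ZMod p → Prop) : Prop :=
  ∀ (γ : ℤ × ℤ → ZMod p) (n : ℕ), 0 < n →
    (∀ i j, Hor (γ (i, j)) (γ (i + 1, j))) → (∀ i j, Ver (γ (i, j)) (γ (i, j + 1))) →
    (∀ i j, γ (i + n, j) = γ (i, j)) → (∀ i j, γ (i, j + n) = γ (i, j)) → False

def fQ (v : ℕ) : ℕ := v % 2
def fT (v : ℕ) : ℕ := v / 2 % 8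
def fL (v : ℕ) : ℕ := v / 16 % 4
def fR (v : ℕ) : ℕ := v / 64

def hor (s t : ZMod 179) : Prop := fQ s.val = fQ t.val ∧ fR s.val = fL t.val
def ver (s t : ZMod 179) : Prop :=
  1 ≤ fT s.val ∧ (fQ s.val = 1 → fT t.val + fL s.val = 2 * fT s.val + fR s.val) ∧
    (fQ s.val = 0 → fT s.val + fL s.val = 3 * fT t.val + fR s.val)

theorem aperiodic : Aperiodic hor ver := by
  intro γ n hn hH hV h1 h2
  set S : ℤ → ℕ := fun j => ∑ i ∈ Finset.range n, fT (γ (i, j)).val with hS
  have hQ : ∀ (j : ℤ) (i : ℕ), fQ (γ (i, j)).val = fQ (γ (0, j)).val := by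
    intro j i
    induction i with
    | zero => simp
    | succ i ih => rw [← ih]; push_cast; exact (hH i j).1.symm
  have hLR : ∀ j : ℤ, ∑ i ∈ Finset.range n, fL (γ (i, j)).val =
      ∑ i ∈ Finset.range n, fR (γ (i, j)).val := by
    intro j
    have e1 := Finset.sum_range_succ (fun i : ℕ => fL (γ (i, j)).val) n
    have e2 := Finset.sum_range_succ' (fun i : ℕ => fL (γ (i, j)).val) n
    have e3 : ∑ i ∈ Finset.range n, fL (γ (((i + 1 : ℕ) : ℤ), j)).val =
        ∑ i ∈ Finset.range n, fR (γ (i, j)).val := by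
      refine Finset.sum_congr rfl fun i _ => ?_
      push_cast; exact (hH i j).2.symm
    have e4 : γ ((n : ℤ), j) = γ (((0 : ℕ) : ℤ), j) := by simpa using h1 0 j
    rw [e4] at e1
    omega
  have hstep : ∀ j : ℤ, S (j + 1) = 2 * S j ∨ S j = 3 * S (j + 1) := by
    intro j
    have hq : fQ (γ (0, j)).val = 1 ∨ fQ (γ (0, j)).val = 0 := by unfold fQ; omega
    have hl := hLR j
    rcases hq with hq | hq
    · left
      have : ∑ i ∈ Finset.range n, (fT (γ (i, j + 1)).val + fL (γ (i, j)).val) =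
          ∑ i ∈ Finset.range n, (2 * fT (γ (i, j)).val + fR (γ (i, j)).val) :=
        Finset.sum_congr rfl fun i _ => (hV i j).2.1 ((hQ j i).trans hq)
      rw [Finset.sum_add_distrib, Finset.sum_add_distrib, ← Finset.mul_sum] at this
      simp only [hS]; omega
    · right
      have : ∑ i ∈ Finset.range n, (fT (γ (i, j)).val + fL (γ (i, j)).val) =
          ∑ i ∈ Finset.range n, (3 * fT (γ (i, j + 1)).val + fR (γ (i, j)).val) :=
        Finset.sum_congr rfl fun i _ => (hV i j).2.2 ((hQ j i).trans hq)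
      rw [Finset.sum_add_distrib, Finset.sum_add_distrib, ← Finset.mul_sum] at this
      simp only [hS]; omega
  have hpos : 0 < S 0 := by
    have : fT (γ (((0 : ℕ) : ℤ), 0)).val ≤ S 0 :=
      Finset.single_le_sum (f := fun i : ℕ => fT (γ (i, 0)).val) (fun _ _ => Nat.zero_le _)
        (Finset.mem_range.2 hn)
    have := (hV ((0 : ℕ) : ℤ) 0).1
    omega
  have hind : ∀ j : ℕ, ∃ a b : ℕ, a + b = j ∧ 2 ^ a * S 0 = 3 ^ b * S j := by
    intro j
    induction j with
    | zero => exact ⟨0, 0, rfl, by simp⟩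
    | succ j ih =>
      obtain ⟨a, b, hab, h⟩ := ih
      rcases hstep j with h' | h'
      · refine ⟨a + 1, b, by omega, ?_⟩
        push_cast; rw [h', pow_succ]; linarith
      · refine ⟨a, b + 1, by omega, ?_⟩
        push_cast; rw [h, h', pow_succ]; ring
  obtain ⟨a, b, hab, h⟩ := hind n
  have hn' : S n = S 0 := by
    simp only [hS]
    refine Finset.sum_congr rfl fun i _ => ?_
    have := h2 i 0
    rw [zero_add] at this
    rw [this]
  rw [hn'] at h
  have h23 : 2 ^ a = 3 ^ b := Nat.eq_of_mul_eq_mul_right hpos h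
  have hc : Nat.Coprime (2 ^ a) (3 ^ b) := Nat.Coprime.pow _ _ (by norm_num)
  rw [← h23, Nat.coprime_self] at hc
  have ha : a = 0 := by
    rcases a with _ | a
    · rfl
    · rw [pow_succ] at hc; omega
  have hb : b = 0 := by
    rw [hc] at h23
    rcases b with _ | b
    · rfl
    · rw [pow_succ] at h23; omega
  omega

theorem exists_orbit : ∃ x : ℤ → ℚ, (∀ j, 1 ≤ x j ∧ x j < 6) ∧
    ∀ j, x (j + 1) = 2 * x j ∨ x (j + 1) = x j / 3 := by
  have h6 : ∀ k : ℤ, (0 : ℚ) < ((6 : ℕ) : ℚ) ^ k := fun k => by positivity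
  have h2 : ∀ k : ℤ, (0 : ℚ) < 2 ^ k := fun k => by positivity
  have lo : ∀ j : ℤ, ((6 : ℕ) : ℚ) ^ Int.log 6 ((2 : ℚ) ^ j) ≤ 2 ^ j := fun j =>
    Int.zpow_log_le_self (by norm_num) (h2 j)
  have hi : ∀ j : ℤ, (2 : ℚ) ^ j < ((6 : ℕ) : ℚ) ^ (Int.log 6 ((2 : ℚ) ^ j) + 1) := fun j =>
    Int.lt_zpow_succ_log_self (by norm_num) _
  have s6 : ∀ k : ℤ, ((6 : ℕ) : ℚ) ^ (k + 1) = ((6 : ℕ) : ℚ) ^ k * 6 := fun k => by
    rw [zpow_add_one₀ (by norm_num)]; norm_num
  refine ⟨fun j => 2 ^ j / ((6 : ℕ) : ℚ) ^ Int.log 6 ((2 : ℚ) ^ j), fun j => ⟨?_, ?_⟩, fun j => ?_⟩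
  · rw [le_div_iff₀ (h6 _)]; simpa using lo j
  · rw [div_lt_iff₀ (h6 _)]; have := hi j; rw [s6] at this; linarith
  · have e : (2 : ℚ) ^ (j + 1) = 2 ^ j * 2 := zpow_add_one₀ (by norm_num) j
    set L := Int.log 6 ((2 : ℚ) ^ j) with hL
    have a1 : L ≤ Int.log 6 ((2 : ℚ) ^ (j + 1)) := by
      rw [← Int.zpow_le_iff_le_log (by norm_num) (h2 _), e]
      have := lo j; have := h2 j; linarith
    have a2 : Int.log 6 ((2 : ℚ) ^ (j + 1)) < L + 1 + 1 := by
      rw [← Int.lt_zpow_iff_log_lt (by norm_num) (h2 _), e, s6]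
      have := hi j; have := h2 j; linarith
    have : Int.log 6 ((2 : ℚ) ^ (j + 1)) = L ∨ Int.log 6 ((2 : ℚ) ^ (j + 1)) = L + 1 := by omega
    rcases this with h | h
    · left; simp only [h]; rw [e]; ring
    · right; simp only [h]; rw [e, s6, ← hL]; have := (h6 L).ne'; field_simp; norm_num

theorem exists_tiling : ∃ α : ℤ × ℤ → ZMod 179, (∀ g, α g ≠ 0) ∧
    (∀ i j, hor (α (i, j)) (α (i + 1, j))) ∧ (∀ i j, ver (α (i, j)) (α (i, j + 1))) := by
  classical
  obtain ⟨x, hx, hs⟩ := exists_orbit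
  set B : ℤ → ℤ → ℤ := fun i j => ⌊((i : ℚ) + 1) * x j⌋ - ⌊(i : ℚ) * x j⌋ with hB
  set q : ℤ → ℤ := fun j => if x (j + 1) = 2 * x j then 1 else 0 with hq
  set c : ℤ → ℤ → ℤ := fun i j => if x (j + 1) = 2 * x j then
    ⌊(i : ℚ) * x (j + 1)⌋ - 2 * ⌊(i : ℚ) * x j⌋ else ⌊(i : ℚ) * x j⌋ - 3 * ⌊(i : ℚ) * x (j + 1)⌋
    with hc
  have hBr : ∀ i j, 1 ≤ B i j ∧ B i j ≤ 6 := by
    intro i j
    have a1 := Int.floor_le ((i : ℚ) * x j)
    have a2 := Int.lt_floor_add_one ((i : ℚ) * x j)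
    have := hx j
    constructor
    · have : ⌊(i : ℚ) * x j⌋ + 1 ≤ ⌊((i : ℚ) + 1) * x j⌋ := by
        rw [Int.le_floor]; push_cast; linarith
      simp only [hB]; omega
    · have : ⌊((i : ℚ) + 1) * x j⌋ < ⌊(i : ℚ) * x j⌋ + 7 := by
        rw [Int.floor_lt]; push_cast; linarith
      simp only [hB]; omega
  have hcr : ∀ i j, 0 ≤ c i j ∧ c i j ≤ 2 := by
    intro i j
    simp only [hc]
    split_ifs with h
    · have a1 := Int.floor_le ((i : ℚ) * x j)
      have a2 := Int.lt_floor_add_one ((i : ℚ) * x j)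
      have b1 : 2 * ⌊(i : ℚ) * x j⌋ ≤ ⌊(i : ℚ) * x (j + 1)⌋ := by
        rw [Int.le_floor, h]; push_cast; linarith
      have b2 : ⌊(i : ℚ) * x (j + 1)⌋ < 2 * ⌊(i : ℚ) * x j⌋ + 2 := by
        rw [Int.floor_lt, h]; push_cast; linarith
      omega
    · have h' : x j = 3 * x (j + 1) := by rw [(hs j).resolve_left h]; ring
      have a1 := Int.floor_le ((i : ℚ) * x (j + 1))
      have a2 := Int.lt_floor_add_one ((i : ℚ) * x (j + 1))
      have b1 : 3 * ⌊(i : ℚ) * x (j + 1)⌋ ≤ ⌊(i : ℚ) * x j⌋ := by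
        rw [Int.le_floor, h']; push_cast; linarith
      have b2 : ⌊(i : ℚ) * x j⌋ < 3 * ⌊(i : ℚ) * x (j + 1)⌋ + 3 := by
        rw [Int.floor_lt, h']; push_cast; linarith
      omega
  have hqr : ∀ j, 0 ≤ q j ∧ q j ≤ 1 := by
    intro j; simp only [hq]; split_ifs <;> omega
  set v : ℤ → ℤ → ℕ := fun i j => (q j + 2 * B i j + 16 * c i j + 64 * c (i + 1) j).toNat with hv
  have hval : ∀ i j, ((v i j : ℕ) : ZMod 179).val = v i j := by
    intro i j
    apply ZMod.val_cast_of_lt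
    have := hBr i j; have := hcr i j; have := hcr (i + 1) j; have := hqr j
    simp only [hv]; omega
  have hdec : ∀ i j, (fQ (v i j) : ℤ) = q j ∧ (fT (v i j) : ℤ) = B i j ∧
      (fL (v i j) : ℤ) = c i j ∧ (fR (v i j) : ℤ) = c (i + 1) j := by
    intro i j
    have := hBr i j; have := hcr i j; have := hcr (i + 1) j; have := hqr j
    simp only [hv, fQ, fT, fL, fR]; omega
  refine ⟨fun g => (v g.1 g.2 : ℕ), ?_, ?_, ?_⟩
  · rintro ⟨i, j⟩ h
    have e := hval i j
    simp only at h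
    rw [h, ZMod.val_zero] at e
    have := hdec i j; have := hBr i j
    rw [← e] at *
    simp only [fT] at *
    omega
  · intro i j
    have := hdec i j; have := hdec (i + 1) j
    simp only [hor, hval]; omega
  · intro i j
    have d1 := hdec i j; have d2 := hdec i (j + 1); have := hBr i j
    simp only [ver, hval]
    refine ⟨by omega, fun h => ?_, fun h => ?_⟩
    · have h1 : x (j + 1) = 2 * x j := by
        by_contra h1
        have : q j = 0 := by simp only [hq, if_neg h1]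
        omega
      have : B i (j + 1) + c i j = 2 * B i j + c (i + 1) j := by
        simp only [hB, hc, if_pos h1]; push_cast; ring
      omega
    · have h1 : ¬ x (j + 1) = 2 * x j := by
        intro h1
        have : q j = 1 := by simp only [hq, if_pos h1]
        omega
      have : B i j + c i j = 3 * B i (j + 1) + c (i + 1) j := by
        simp only [hB, hc, if_neg h1]; push_cast; ring
      omega

/-- polynomial that is the indicator of the value `s` on the prime field -/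
def ind {p : ℕ} {A : Type} [Ring A] (s : ZMod p) (b : A) : A := 1 - (b - (s.val : A)) ^ (p - 1)

theorem map_ind {p : ℕ} {A B : Type} [Ring A] [Ring B] (f : A →+* B) (s : ZMod p) (b : A) :
    f (ind s b) = ind s (f b) := by simp [ind]

theorem key {p : ℕ} [hp : Fact p.Prime] {Hor Ver : ZMod p → ZMod p → Prop}
    (hap : Aperiodic Hor Ver) {Λ : Type} [CommRing Λ] (β : ℤ × ℤ → Λ) (h0 : (p : Λ) = 0)
    (hm : ∀ g, β g ^ (p - 1) = 1)
    (hH : ∀ i j s t, ¬ Hor s t → ind s (β (i, j)) * ind t (β (i + 1, j)) = 0)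
    (hV : ∀ i j s t, ¬ Ver s t → ind s (β (i, j)) * ind t (β (i, j + 1)) = 0)
    (J : Ideal Λ) (n : ℕ) (hn : 0 < n)
    (h1 : ∀ i j, (β (i + n, j) - β (i, j)) ^ 2 ∈ J)
    (h2 : ∀ i j, (β (i, j + n) - β (i, j)) ^ 2 ∈ J) : J = ⊤ := by
  by_contra hJ
  obtain ⟨M, hM, hJM⟩ := Ideal.exists_le_maximal J hJ
  let _ : Field (Λ ⧸ M) := Ideal.Quotient.field M
  set π := Ideal.Quotient.mk M
  have : CharP (Λ ⧸ M) p := by
    rw [CharP.charP_iff_prime_eq_zero hp.out]
    rw [← map_natCast π, h0, map_zero]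
  have hp1 : p - 1 + 1 = p := Nat.sub_add_cancel hp.out.one_le
  have hex : ∀ g, ∃ s : ZMod p, π (β g) = (s.val : Λ ⧸ M) := by
    intro g
    have : π (β g) ^ p = π (β g) := by
      conv_lhs => rw [← hp1, pow_succ, ← map_pow, hm, map_one, one_mul]
    rw [← Subfield.mem_bot_iff_pow_eq_self _ p, mem_bot_iff_intCast p] at this
    obtain ⟨k, hk⟩ := this
    refine ⟨k, ?_⟩
    rw [← hk, ZMod.natCast_val, ZMod.cast_intCast (dvd_refl p)]
  choose γ hγ using hex
  have hinj : ∀ s t : ZMod p, (s.val : Λ ⧸ M) = t.val → s = t := by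
    intro s t h
    rw [ZMod.natCast_val, ZMod.natCast_val] at h
    exact (ZMod.castHom (dvd_refl p) (Λ ⧸ M)).injective h
  have hone : ∀ g, π (ind (γ g) (β g)) = 1 := by
    intro g
    rw [map_ind, ind, hγ, sub_self, zero_pow, sub_zero]
    have := hp.out.two_le; omega
  have hper : ∀ g h, (β g - β h) ^ 2 ∈ J → γ g = γ h := by
    intro g h hh
    apply hinj
    rw [← hγ, ← hγ, ← sub_eq_zero, ← map_sub, Ideal.Quotient.eq_zero_iff_mem]
    exact hM.isPrime.mem_of_pow_mem 2 (hJM hh)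
  refine hap γ n hn (fun i j => ?_) (fun i j => ?_) (fun i j => hper _ _ (h1 i j))
    (fun i j => hper _ _ (h2 i j))
  · by_contra h
    have := congrArg π (hH i j _ _ h)
    rw [map_mul, hone, hone, map_zero] at this
    simp at this
  · by_contra h
    have := congrArg π (hV i j _ _ h)
    rw [map_mul, hone, hone, map_zero] at this
    simp at this

end Pool.Agent.Lib.MP_fcd4e5_al
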